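import Pool.Agent.Shared.Sing.Circ
import Pool.Agent.Shared.Sing.Orient

/-! A criterion for integral fundamental cycles; surfaces with maps to circles. -/

set_option linter.unusedSectionVars false
set_option maxSynthPendingDepth 3

namespace Pool.Agent.Lib.MP_18d288_gt

open Finsupp Set Pool.Agent.Shared.Sing Pool.Agent.Shared.SingEZ

variable {Y : Type*} [TopologicalSpace Y] [Nonempty Y] {ι : Type*} [Fintype ι]

/-- Real coefficients. -/
noncomputable abbrev cR {α : Type*} : (α →₀ ℤ) →+ (α →₀ ℝ) := cf (Int.castRingHom ℝ)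

/-- The class of `z` generates the local homology at `x`. -/
def Gen (d : ℕ) (z : C ℤ Y) (x : Y) : Prop :=
  ∀ c ∈ Z ℤ univ {x}ᶜ d, ∃ r : ℤ, c - r • z ∈ B ℤ univ {x}ᶜ d

lemma loc_mfd {R : Type} [CommRing R] [T2Space Y] (hY : LocEuc ι Y) (x : Y) :
    ∃ g ∈ Z R univ {x}ᶜ (Fintype.card ι), (∀ r : R, r • g ∈ B R univ {x}ᶜ (Fintype.card ι) → r = 0) ∧
      ∀ c ∈ Z R univ {x}ᶜ (Fintype.card ι), ∃ r : R, c - r • g ∈ B R univ {x}ᶜ (Fintype.card ι) := by
  obtain ⟨φ, hs⟩ := hY x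
  obtain ⟨z, hz, h1, h2⟩ := (loc_euc (R := R) (φ x)).2
  obtain ⟨g, hg, h3⟩ := chart_surj φ (singleton_subset_iff.2 hs) (by simp) (image_singleton ▸ hz)
  rw [image_singleton] at h3
  refine ⟨g, Z_mono (subset_univ _) inter_subset_right hg, fun r hr => h1 r ?_, fun c hc => ?_⟩
  · have := (chart_pt φ (mem_singleton x) hs (Submodule.smul_mem _ r hg)).1 hr
    rw [map_smul] at this
    simpa [smul_sub] using add_mem (Submodule.smul_mem _ r h3) this
  obtain ⟨a, ha, h4⟩ := exc_surj φ.open_source isOpen_compl_singleton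
    (by simpa [← compl_subset_iff_union]) hc
  obtain ⟨r, hr⟩ := h2 _ (image_singleton ▸ Z_mono (subset_univ _) inter_subset_right
    (chart_Z φ (singleton_subset_iff.2 hs) ha))
  have := (chart_pt φ (mem_singleton x) hs (sub_mem ha (Submodule.smul_mem _ r hg))).2 (by
    simpa [smul_sub] using add_mem hr (Submodule.smul_mem _ r h3))
  exact ⟨r, by simpa using add_mem h4 this⟩

/-- A top cycle on which an integral cocycle takes the value one is a fundamental cycle. -/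
theorem gen_of_one [T2Space Y] [CompactSpace Y] [PreconnectedSpace Y] (hY : LocEuc ι Y)
    {z : C ℤ Y} (hz : z ∈ Z ℤ univ ∅ (Fintype.card ι)) {a : C ℤ Y →ₗ[ℤ] ℤ}
    (ha : Coc univ (Fintype.card ι) a) (h1 : a z = 1) (x : Y) : Gen (Fintype.card ι) z x := by
  obtain ⟨g, hg, -, h2⟩ := loc_mfd (R := ℤ) hY x
  obtain ⟨n, hn⟩ := h2 z (Z_mono le_rfl (empty_subset _) hz)
  have hu : n * n = 1 := by
    by_contra h
    obtain ⟨p, hp, hpn⟩ := Int.exists_prime_and_dvd (n := n) fun h' => h (by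
      rcases Int.natAbs_eq_iff.1 h' with rfl | rfl <;> simp)
    have hp' : Fact p.natAbs.Prime := ⟨Int.prime_iff_natAbs_prime.1 hp⟩
    let φ := Int.castRingHom (ZMod p.natAbs)
    refine fund_of_cycle hY (cf_Z φ hz) (fun hB => ?_) x ?_
    · have := (bc_coc φ ha).apply_B hB
      rw [bc_cf, h1, map_one] at this
      exact one_ne_zero this
    · have := cf_B φ hn
      rwa [map_sub, cf_smul, show φ n = 0 from (ZMod.intCast_zmod_eq_zero_iff_dvd n _).2
        (Int.natAbs_dvd.2 hpn), zero_smul, sub_zero] at this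
  intro c hc
  obtain ⟨r, hr⟩ := h2 c hc
  refine ⟨r * n, ?_⟩
  convert sub_mem hr (Submodule.smul_mem _ (r * n) hn) using 1
  rw [smul_sub, smul_smul, mul_assoc, hu, mul_one]
  abel

lemma exists_int_word {κ : Type*} {f : κ → Y → UnitAddCircle} (hf : ∀ i, Continuous (f i))
    (I : List κ) : ∃ a : C ℤ Y →ₗ[ℤ] ℤ, Coc univ I.length a ∧
      ∀ c ∈ Z ℤ univ ∅ I.length, ev (I.map fun i => xf (f i)) (cR c) = a c := by
  choose y h1 h2 using fun i => exists_int (hf i)
  refine ⟨_, Coc_ev' h1 I, fun c hc => ?_⟩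
  rw [ev_eq (fun i => bc_coc _ (h1 i)) h2 I (cf_Z _ hc), ← bc_ev, bc_cf]
  rfl

theorem gen_of_word [T2Space Y] [CompactSpace Y] [PreconnectedSpace Y] (hY : LocEuc ι Y)
    {κ : Type*} {f : κ → Y → UnitAddCircle} (hf : ∀ i, Continuous (f i)) {I : List κ}
    (hI : I.length = Fintype.card ι) {z : C ℤ Y} (hz : z ∈ Z ℤ univ ∅ I.length)
    (h1 : ev (I.map fun i => xf (f i)) (cR z) = 1) (x : Y) : Gen I.length z x := by
  obtain ⟨a, ha, h⟩ := exists_int_word hf I
  rw [h z hz] at h1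
  rw [hI] at hz ha ⊢
  exact gen_of_one hY hz ha (by exact_mod_cast h1) x

/-- A surface cycle `z` and maps `f i` to the circle that detect the first integral homology. -/
structure Surf {κ : Type*} [DecidableEq κ] (f : κ → Y → UnitAddCircle) (J : κ → κ → ℝ)
    (z : C ℤ Y) : Prop where
  cont : ∀ i, Continuous (f i)
  cyc : z ∈ Z ℤ univ ∅ 2
  pair : ∀ i j, ev [xf (f i), xf (f j)] (cR z) = J i j
  det : ∀ c ∈ Z ℤ univ ∅ 1, (∀ i, xf (f i) (cR c) = 0) → c ∈ B ℤ univ ∅ 1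
  dual : ∀ j, ∃ c ∈ Z ℤ univ ∅ 1, ∀ i, xf (f i) (cR c) = if i = j then 1 else 0

/-- The standard symplectic matrix. -/
def Jn (i j : ℕ) : ℤ := if i % 2 = 0 ∧ j = i + 1 then 1 else if j % 2 = 0 ∧ i = j + 1 then -1 else 0

end Pool.Agent.Lib.MP_18d288_gt
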