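import Pool.Agent.Lib.MP_18d288_gt.Defs
import Pool.Agent.Lib.MP_18d288_gt.Gen
import Pool.Agent.Shared.Sing.Bridge
import Pool.Agent.Shared.Sing.PD
import Pool.Agent.Shared.Sing.Circ
import Pool.Agent.Shared.Sing.Word

/-! Betti numbers of closed four-manifolds and bounds on the positive part of the cup form. -/

set_option linter.unusedSectionVars false
set_option maxSynthPendingDepth 3

namespace Pool.Agent.Lib.MP_18d288_gt

open Set Pool.Agent.Shared.Sing Pool.Agent.Shared.SingEZ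
open Pool.Agent.Sing (Coh Hml cyc cocyc ccl hcl)

variable {M : Type} [TopologicalSpace M] [Nonempty M]

lemma hml_equiv (k : ℕ) : Nonempty (Hml ℝ M k ≃ₗ[ℝ] Hq ℝ (univ : Set M) k) := by
  let f : cyc ℝ M k →ₗ[ℝ] Hq ℝ (univ : Set M) k :=
    Submodule.mkQ _ ∘ₗ (br ℝ k).restrict fun _ hc => br_mem_Z.2 hc
  have h1 : Function.Surjective f := fun x => by
    obtain ⟨⟨z, hz⟩, rfl⟩ := Submodule.mkQ_surjective _ x
    obtain ⟨c, hc, rfl⟩ := exists_cyc hz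
    exact ⟨⟨c, hc⟩, rfl⟩
  have h2 : (Pool.Agent.Sing.bdry ℝ M k).comap (cyc ℝ M k).subtype = LinearMap.ker f :=
    Submodule.ext fun z => br_mem_B.symm.trans (Submodule.Quotient.mk_eq_zero
      ((B ℝ (univ : Set M) ∅ k).comap (Z ℝ (univ : Set M) ∅ k).subtype)
      (x := ⟨_, br_mem_Z.2 z.2⟩)).symm
  exact ⟨(Submodule.quotEquivOfEq _ _ h2).trans (f.quotKerEquivOfSurjective h1)⟩

lemma coh_equiv (k : ℕ) : Nonempty (Coh ℝ M k ≃ₗ[ℝ] Module.Dual ℝ (Hml ℝ M k)) := by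
  let g : cocyc ℝ M k →ₗ[ℝ] Module.Dual ℝ (Hml ℝ M k) :=
    { toFun a := Submodule.liftQ _ (a.1 ∘ₗ (cyc ℝ M k).subtype)
        fun _ hz => Pool.Agent.Sing.cocyc_apply_bdry a.2 hz
      map_add' _ _ := Submodule.linearMap_qext _ rfl
      map_smul' _ _ := Submodule.linearMap_qext _ rfl }
  have hg : ∀ a z, g a (hcl ℝ M k z) = a.1 z.1 := fun _ _ => rfl
  have h1 : Function.Surjective g := fun l => by
    obtain ⟨a, ha⟩ := LinearMap.exists_extend (l ∘ₗ hcl ℝ M k)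
    have h : ∀ z : cyc ℝ M k, a z.1 = l (hcl ℝ M k z) := LinearMap.congr_fun ha
    refine ⟨⟨a, Pool.Agent.Sing.mem_cocyc.2 fun c => ?_⟩, LinearMap.ext fun x => ?_⟩
    · rw [h ⟨_, Pool.Agent.Sing.bd_mem_cyc c⟩, Pool.Agent.Sing.hcl_eq_zero.2
        (Pool.Agent.Sing.bd_mem_bdry c), map_zero]
    · obtain ⟨z, rfl⟩ := Pool.Agent.Sing.hcl_surjective k x
      exact h z
  have h2 : (Pool.Agent.Sing.cobdry ℝ M k).comap (cocyc ℝ M k).subtype = LinearMap.ker g :=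
    Submodule.ext fun a => Pool.Agent.Sing.mem_cobdry_iff.trans
      ⟨fun h => LinearMap.ext fun x => by
        obtain ⟨z, rfl⟩ := Pool.Agent.Sing.hcl_surjective k x
        exact h z z.2,
      fun h z hz => (hg a ⟨z, hz⟩).symm.trans (LinearMap.congr_fun h _)⟩
  exact ⟨(Submodule.quotEquivOfEq _ _ h2).trans (g.quotKerEquivOfSurjective h1)⟩

/-- Dual families of cocycles and cycles that detect boundaries count the Betti number. -/
lemma finrank_Hq {k n : ℕ} (xi : Fin n → C ℝ M →ₗ[ℝ] ℝ) (ga : Fin n → C ℝ M)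
    (hxi : ∀ i, Coc univ k (xi i)) (hga : ∀ j, ga j ∈ Z ℝ univ ∅ k)
    (hd : ∀ i j, xi i (ga j) = if i = j then 1 else 0)
    (hs : ∀ c ∈ Z ℝ univ ∅ k, (∀ i, xi i c = 0) → c ∈ B ℝ univ ∅ k) :
    Module.finrank ℝ (Hq ℝ (univ : Set M) k) = n := by
  let f : Z ℝ (univ : Set M) ∅ k →ₗ[ℝ] Fin n → ℝ :=
    LinearMap.pi fun i => xi i ∘ₗ (Z ℝ (univ : Set M) ∅ k).subtype
  have h1 : Function.Surjective f := fun t =>
    ⟨∑ j, t j • ⟨ga j, hga j⟩, funext fun i => by simp [f, hd]⟩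
  have h2 : (B ℝ (univ : Set M) ∅ k).comap (Z ℝ (univ : Set M) ∅ k).subtype = LinearMap.ker f :=
    Submodule.ext fun z => ⟨fun h => funext fun i => (hxi i).apply_B h,
      fun h => hs z z.2 (congrFun h)⟩
  rw [((Submodule.quotEquivOfEq _ _ h2).trans (f.quotKerEquivOfSurjective h1)).finrank_eq,
    Module.finrank_fin_fun]

lemma finrank_Hq_zero [PathConnectedSpace M] : Module.finrank ℝ (Hq ℝ (univ : Set M) 0) = 1 := by
  obtain ⟨x⟩ := ‹Nonempty M›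
  refine finrank_Hq (fun _ => e1) (fun _ => pt ℝ x) (fun _ => Coc_e1)
    (fun _ => mem_Z_zero (pt_In (mem_univ x))) (fun i j => ?_) fun c hc h => ?_
  · rw [e1_pt, if_pos (Subsingleton.elim i j)]
  · have := zero_Bd isPathConnected_univ (mem_univ x) hc.1
    rw [h 0, zero_smul, sub_zero] at this
    exact Submodule.mem_sup_left this

theorem chi_eq [T2Space M] [CompactSpace M] [PathConnectedSpace M] (hM : LocEuc (Fin 4) M)
    {mu : C ℝ M} (hmu : mu ∈ Z ℝ univ ∅ 4) (h0 : ∀ x, mu ∉ B ℝ univ {x}ᶜ 4) {n : ℕ}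
    (xi : Fin n → C ℝ M →ₗ[ℝ] ℝ) (ga : Fin n → C ℝ M) (hxi : ∀ i, Coc univ 1 (xi i))
    (hga : ∀ j, ga j ∈ Z ℝ univ ∅ 1) (hd : ∀ i j, xi i (ga j) = if i = j then 1 else 0)
    (hs : ∀ c ∈ Z ℝ univ ∅ 1, (∀ i, xi i c = 0) → c ∈ B ℝ univ ∅ 1) :
    Module.Finite ℝ (Coh ℝ M 2) ∧ chi M = 2 - 2 * n + Module.finrank ℝ (Coh ℝ M 2) := by
  obtain ⟨τ, hτ⟩ : ∃ τ, IsThom 4 mu τ := by
    simpa using exists_isThom hM (μ := mu) (by simpa using hmu) (by simpa using h0)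
  have le : ∀ k m, k + m = 4 → Module.finrank ℝ (Hq ℝ (univ : Set M) k) ≤
      Module.finrank ℝ (Hq ℝ (univ : Set M) m) := fun k m h => by
    obtain ⟨g, hg, -⟩ := hτ.exists_map hM h
    have := hτ.finite hM ((add_comm m k).trans h)
    rw [← Subspace.dual_finrank_eq]
    exact LinearMap.finrank_le_finrank_of_injective hg
  have e : ∀ k, Module.finrank ℝ (Hml ℝ M k) = Module.finrank ℝ (Hq ℝ (univ : Set M) k) :=
    fun k => (hml_equiv k).some.finrank_eq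
  have b0 := finrank_Hq_zero (M := M)
  have b1 := finrank_Hq xi ga hxi hga hd hs
  have b3 := (le_antisymm (le 3 1 rfl) (le 1 3 rfl)).trans b1
  have b4 := (le_antisymm (le 4 0 rfl) (le 0 4 rfl)).trans b0
  have f2 := hτ.finite hM (show 2 + 2 = 4 from rfl)
  have f3 := Module.Finite.equiv (hml_equiv (M := M) 2).some.symm
  refine ⟨Module.Finite.equiv (coh_equiv 2).some.symm, ?_⟩
  rw [(coh_equiv 2).some.finrank_eq, Subspace.dual_finrank_eq]
  simp only [chi, Finset.sum_range_succ, Finset.sum_range_zero, e, b0, b1, b3, b4]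
  push_cast
  ring

section cls

variable {ι : Type} [Fintype ι] (w : ι → C ℝ M →ₗ[ℝ] ℝ) (hw : ∀ i, Coc univ 2 (w i))
include hw

lemma coc_comb (t : ι → ℝ) : Coc univ 2 (∑ i, t i • w i) :=
  Coc_sum _ fun i => Coc_smul (t i) (hw i)

lemma exists_cls : ∃ T : (ι → ℝ) →ₗ[ℝ] Coh ℝ M 2, ∀ t, T t =
    ccl ℝ M 2 ⟨(∑ i, t i • w i) ∘ₗ br ℝ 2, comp_br_mem_cocyc.2 (coc_comb w hw t)⟩ := by
  refine ⟨Fintype.linearCombination ℝ fun i =>
    ccl ℝ M 2 ⟨w i ∘ₗ br ℝ 2, comp_br_mem_cocyc.2 (hw i)⟩, fun t => ?_⟩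
  simp only [Fintype.linearCombination_apply, ← map_smul, ← map_sum]
  exact congrArg _ (Subtype.ext (LinearMap.ext fun c => by simp))

end cls

lemma br_cast {k : ℕ} (mu : Pool.Agent.Sing.Ch ℤ M k) :
    br ℝ k (mu.mapRange Int.cast Int.cast_zero) = cR (br ℤ k mu) :=
  (cf_comm (Int.castRingHom ℝ) (f := br ℤ k) (g := br ℝ k) (fun _ => by simp) mu).symm

lemma bdd_bPlus (hfin : Module.Finite ℝ (Coh ℝ M 2)) (p : Submodule ℝ (Coh ℝ M 2) → Prop) :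
    BddAbove {n | ∃ P : Submodule ℝ (Coh ℝ M 2), Module.finrank ℝ P = n ∧ p P} :=
  ⟨Module.finrank ℝ (Coh ℝ M 2), fun _ ⟨P, h, _⟩ => h ▸ P.finrank_le⟩

theorem le_bPlus (hfin : Module.Finite ℝ (Coh ℝ M 2)) {mu : Pool.Agent.Sing.Ch ℤ M 4}
    (hmu : mu ∈ cyc ℤ M 4) {ι : Type} [Fintype ι] (w : ι → C ℝ M →ₗ[ℝ] ℝ)
    (hw : ∀ i, Coc univ 2 (w i))
    (hpos : ∀ t : ι → ℝ, t ≠ 0 →
      0 < cup 2 (∑ i, t i • w i) (∑ i, t i • w i) (cR (br ℤ 4 mu))) :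
    Fintype.card ι ≤ bPlus M mu := by
  obtain ⟨T, hT⟩ := exists_cls w hw
  have hz : cR (br ℤ 4 mu) ∈ Z ℝ (univ : Set M) ∅ (3 + 1) := cf_Z _ (br_mem_Z.2 hmu)
  have hi : Function.Injective T := (injective_iff_map_eq_zero _).2 fun t ht => by
    by_contra h
    rw [hT, Pool.Agent.Sing.ccl_eq_zero] at ht
    exact (hpos t h).ne' ((Dies_cup_left (p := 1) (comp_br_mem_cobdry.1 ht)
      (coc_comb w hw t)).apply_Z (k := 3) hz)
  refine le_csSup (bdd_bPlus hfin _) ⟨LinearMap.range T, ?_, ?_⟩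
  · simpa using LinearMap.finrank_range_of_inj hi
  · rintro a ⟨t, ht⟩ h
    have h1 : Dies univ (1 + 1) (a.1 ∘ₗ rb ℝ 2 - ∑ i, t i • w i) := by
      rw [← comp_br_mem_cobdry, LinearMap.sub_comp, comp_rb_comp_br]
      exact Pool.Agent.Sing.ccl_eq_ccl.1 (ht.symm.trans (hT t))
    have h2 := (Dies_cup h1 h1 (coc_comb w hw t) (coc_comp_rb.2 a.2)).apply_Z (k := 3) hz
    rw [cup_eq_comp_br, LinearMap.comp_apply, br_cast, sub_eq_zero.1 h2]
    exact hpos t fun h0 => h (by rw [← ht, h0, map_zero])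

lemma exists_bPlus (hfin : Module.Finite ℝ (Coh ℝ M 2)) (mu : Pool.Agent.Sing.Ch ℤ M 4) :
    ∃ P : Submodule ℝ (Coh ℝ M 2), Module.finrank ℝ P = bPlus M mu ∧
      ∀ a : cocyc ℝ M 2, ccl ℝ M 2 a ∈ P → ccl ℝ M 2 a ≠ 0 →
        0 < Pool.Agent.Sing.cup (show 2 + 2 = 4 from rfl) a.1 a.1
          (mu.mapRange Int.cast Int.cast_zero) := by
  refine Nat.sSup_mem ?_ (bdd_bPlus hfin _)
  exact ⟨_, ⊥, rfl, fun _ h h' => (h' h).elim⟩

theorem bPlus_add_le (hfin : Module.Finite ℝ (Coh ℝ M 2)) (mu : Pool.Agent.Sing.Ch ℤ M 4) :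
    bPlus M mu + bPlus M (-mu) ≤ Module.finrank ℝ (Coh ℝ M 2) := by
  obtain ⟨P, h1, h2⟩ := exists_bPlus hfin mu
  obtain ⟨Q, h3, h4⟩ := exists_bPlus hfin (-mu)
  rw [← h1, ← h3]
  refine Submodule.finrank_add_finrank_le_of_disjoint
    (Submodule.disjoint_def.2 fun x hP hQ => by_contra fun h => ?_)
  obtain ⟨a, rfl⟩ := Pool.Agent.Sing.ccl_surjective 2 x
  have h5 := h4 a hQ h
  rw [show (-mu).mapRange (Int.cast : ℤ → ℝ) Int.cast_zero =
    -mu.mapRange Int.cast Int.cast_zero from Finsupp.ext fun _ => by simp, map_neg] at h5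
  linarith [h2 a hP h]

section pull

variable {Y : Type} [TopologicalSpace Y] [Nonempty Y] {p : Y → M} (hp : Continuous p)
  {ι : Type} [Fintype ι] (w : ι → C ℝ Y →ₗ[ℝ] ℝ)
  (hs : ∀ a : C ℝ M →ₗ[ℝ] ℝ, Coc univ 2 a →
    ∃ t : ι → ℝ, ∀ c ∈ Z ℝ univ ∅ 2, a (map p c) = (∑ i, t i • w i) c)
include hp hs

lemma exists_coord : ∃ T : Coh ℝ M 2 →ₗ[ℝ] ι → ℝ, ∀ x, ∃ a : cocyc ℝ M 2, ccl ℝ M 2 a = x ∧
    ∀ c ∈ Z ℝ univ ∅ 2, (a.1 ∘ₗ rb ℝ 2) (map p c) = (∑ i, T x i • w i) c := by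
  let S : Submodule ℝ (cocyc ℝ M 2 × (ι → ℝ)) :=
    { carrier := {q | ∀ c ∈ Z ℝ univ ∅ 2, (q.1.1 ∘ₗ rb ℝ 2) (map p c) = (∑ i, q.2 i • w i) c}
      add_mem' := fun {a b} ha hb c hc => by
        simpa [add_mul, Finset.sum_add_distrib] using congrArg₂ (· + ·) (ha c hc) (hb c hc)
      zero_mem' := fun c _ => by simp
      smul_mem' := fun r a ha c hc => by
        simpa [Finset.mul_sum, mul_assoc] using congrArg (r * ·) (ha c hc) }
  obtain ⟨g, hg⟩ := (ccl ℝ M 2 ∘ₗ LinearMap.fst ℝ _ _ ∘ₗ S.subtype).exists_rightInverse_of_surjective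
    (LinearMap.range_eq_top.2 fun x => by
      obtain ⟨a, rfl⟩ := Pool.Agent.Sing.ccl_surjective 2 x
      obtain ⟨t, ht⟩ := hs _ (coc_comp_rb.2 a.2)
      exact ⟨⟨(a, t), ht⟩, rfl⟩)
  exact ⟨LinearMap.snd ℝ _ _ ∘ₗ S.subtype ∘ₗ g, fun x =>
    ⟨(g x).1.1, LinearMap.congr_fun hg x, (g x).2⟩⟩

theorem finrank_Coh_le (hi : ∀ a : C ℝ M →ₗ[ℝ] ℝ, Coc univ 2 a →
      (∀ c ∈ Z ℝ univ ∅ 2, a (map p c) = 0) → ∀ c ∈ Z ℝ univ ∅ 2, a c = 0) :
    Module.finrank ℝ (Coh ℝ M 2) ≤ Fintype.card ι := by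
  obtain ⟨T, hT⟩ := exists_coord hp w hs
  have h : Function.Injective T := (injective_iff_map_eq_zero _).2 fun x hx => by
    obtain ⟨a, rfl, ha⟩ := hT x
    refine Pool.Agent.Sing.ccl_eq_zero.2 (Pool.Agent.Sing.mem_cobdry_iff.2 fun z hz => ?_)
    simpa using hi _ (coc_comp_rb.2 a.2) (fun c hc => by rw [ha c hc, hx]; simp) _
      (br_mem_Z.2 hz)
  simpa using LinearMap.finrank_le_finrank_of_injective h

theorem bPlus_le (hw : ∀ i, Coc univ 2 (w i)) {mu : Pool.Agent.Sing.Ch ℤ M 4} {ζ : C ℝ Y}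
    (hζ : ζ ∈ Z ℝ univ ∅ 4) (h2 : map p ζ = (2 : ℝ) • cR (br ℤ 4 mu)) {κ : Type} [Fintype κ]
    (N : (κ → ℝ) →ₗ[ℝ] (ι → ℝ))
    (hN : ∀ s, s ≠ 0 → cup 2 (∑ i, N s i • w i) (∑ i, N s i • w i) ζ < 0) :
    bPlus M mu + Fintype.card κ ≤ Fintype.card ι := by
  obtain ⟨T, hT⟩ := exists_coord hp w hs
  have q0 : cup 2 (∑ i, (0 : ι → ℝ) i • w i) (∑ i, (0 : ι → ℝ) i • w i) ζ = 0 := by simp [cup]
  have key : ∀ n ∈ {n | ∃ P : Submodule ℝ (Coh ℝ M 2), Module.finrank ℝ P = n ∧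
      ∀ a : cocyc ℝ M 2, ccl ℝ M 2 a ∈ P → ccl ℝ M 2 a ≠ 0 →
        0 < Pool.Agent.Sing.cup (show 2 + 2 = 4 from rfl) a.1 a.1
          (mu.mapRange Int.cast Int.cast_zero)}, n + Fintype.card κ ≤ Fintype.card ι := by
    rintro _ ⟨P, rfl, hP⟩
    have h1 : ∀ x ∈ P, x ≠ 0 → 0 < cup 2 (∑ i, T x i • w i) (∑ i, T x i • w i) ζ := by
      intro x hx h0
      obtain ⟨a, h3, ha⟩ := hT x
      have h4 := hP a (h3 ▸ hx) (h3 ▸ h0)
      rw [cup_eq_comp_br, LinearMap.comp_apply, br_cast] at h4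
      have h5 : Dies univ (1 + 1) ((a.1 ∘ₗ rb ℝ 2) ∘ₗ map p - ∑ i, T x i • w i) :=
        dies_of_kills fun c hc => sub_eq_zero.2 (ha c hc)
      have h6 := (Dies_cup h5 h5 (coc_comb w hw _)
        (Coc_map hp (coc_comp_rb.2 a.2))).apply_Z (k := 3) hζ
      rw [← sub_eq_zero.1 h6, ← cup_map hp, LinearMap.comp_apply, h2, map_smul]
      exact mul_pos two_pos h4
    have hi : Function.Injective ((T ∘ₗ P.subtype).coprod (-N)) :=
      (injective_iff_map_eq_zero _).2 fun ⟨x, s⟩ h => by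
        have e : T x = N s := sub_eq_zero.1 (by simpa [sub_eq_add_neg] using h)
        by_cases hx : x.1 = 0
        · have hs0 : s = 0 := by_contra fun h0 => by
            have := hN s h0
            rw [← e, hx, map_zero, q0] at this
            exact this.false
          exact Prod.ext (Subtype.ext hx) hs0
        · have := h1 x x.2 hx
          rw [e] at this
          rcases eq_or_ne s 0 with rfl | h0
          · rw [map_zero, q0] at this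
            exact this.false.elim
          · exact (this.trans (hN s h0)).false.elim
    have hf : Module.Finite ℝ P := Module.Finite.of_injective
      (((T ∘ₗ P.subtype).coprod (-N)) ∘ₗ LinearMap.inl ℝ _ _) (hi.comp LinearMap.inl_injective)
    simpa using LinearMap.finrank_le_finrank_of_injective hi
  refine key _ (Nat.sSup_mem ?_ ⟨Fintype.card ι, fun n hn => le_of_add_le_left (key n hn)⟩)
  exact ⟨_, ⊥, rfl, fun _ h h' => (h' h).elim⟩

end pull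

end Pool.Agent.Lib.MP_18d288_gt
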