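import Pool.Agent.Shared.Sing.Defs

/-! The geography of closed oriented four-manifolds over a classifying space. -/

namespace Pool.Agent.Lib.MP_18d288_gt

open Pool.Agent.Sing

section chains

variable {R : Type} [CommRing R] {X : Type} [TopologicalSpace X] {n : ℕ}

/-- `c` is a cycle. -/
def IsCyc (c : Ch R X n) : Prop := c ∈ cyc R X n

/-- `c` is a cycle relative to `A`. -/
def IsRelCyc (A : Set X) (c : Ch R X (n + 1)) : Prop := bd R X n c ∈ chIn R X A n

/-- `c` and `c'` are homologous. -/
def Hlg (c c' : Ch R X n) : Prop := c - c' ∈ bdry R X n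

/-- `c` and `c'` are homologous relative to `A`. -/
def RelHlg (A : Set X) (c c' : Ch R X n) : Prop := c - c' ∈ bdry R X n ⊔ chIn R X A n

/-- `a` is a cocycle. -/
def IsCoc (a : Co R X n) : Prop := a ∈ cocyc R X n

/-- The value of a cochain on a chain. -/
noncomputable def val (a : Co R X n) (c : Ch R X n) : R := a c

end chains

/-- The largest dimension of a subspace of `S` on which `q` is positive definite. -/
noncomputable def posIndex {V : Type} [AddCommGroup V] [Module ℝ V] (S : Submodule ℝ V)
    (q : V → ℝ) : ℕ :=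
  sSup {n | ∃ P ≤ S, Module.finrank ℝ P = n ∧ ∀ a ∈ P, a ≠ 0 → 0 < q a}

section mfd

variable {M : Type} [TopologicalSpace M]

/-- `μ` is an integral fundamental cycle: a four-cycle whose class generates the homology of
`M` relative to the complement of each point. -/
def IsFund (μ : Ch ℤ M 4) : Prop :=
  IsCyc μ ∧ ∀ (x : M) (c : Ch ℤ M 4), IsRelCyc {x}ᶜ c → ∃ r : ℤ, RelHlg {x}ᶜ c (r • μ)

/-- The positive index of the intersection form: the form on real two-cocycles sends `a` to the
value of the cup square of `a` on `μ`. -/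
noncomputable def bPos (μ : Ch ℤ M 4) : ℕ :=
  posIndex (cocyc ℝ M 2) fun a =>
    val (cup (show 2 + 2 = 4 from rfl) a a) (μ.mapRange Int.cast Int.cast_zero)

/-- The signature of `M` oriented by `μ`. -/
noncomputable def sig (μ : Ch ℤ M 4) : ℤ := (bPos μ : ℤ) - bPos (-μ)

variable (M) in
/-- The Euler characteristic of a four-manifold. -/
noncomputable def euler : ℤ :=
  ∑ k ∈ Finset.range 5, (-1) ^ k * (Module.finrank ℝ (Hml ℝ M k) : ℤ)

variable {T : Type} [TopologicalSpace T]

/-- `F` induces an isomorphism of fundamental groups at `x`. -/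
def PiIso (F : C(M, T)) (x : M) : Prop := Function.Bijective (FundamentalGroup.map F x)

/-- The pairs (signature, Euler characteristic) of the closed connected oriented topological
four-manifolds with a map to `T` that induces an isomorphism of fundamental groups and sends the
fundamental class to the class of `α`. -/
def geog (α : Ch ℤ T 4) : Set (ℤ × ℤ) :=
  {p | ∃ (M : Type) (_ : TopologicalSpace M) (_ : T2Space M) (_ : CompactSpace M)
    (_ : ConnectedSpace M) (_ : ChartedSpace (EuclideanSpace ℝ (Fin 4)) M) (μ : Ch ℤ M 4)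
    (F : C(M, T)) (x : M), IsFund μ ∧ PiIso F x ∧ Hlg (push ℤ F 4 μ) α ∧ p = (sig μ, euler M)}

/-- `τ` is a six-cycle whose class generates the integral homology in degree six. -/
def IsGen (τ : Ch ℤ T 6) : Prop := IsCyc τ ∧ ∀ c, IsCyc c → ∃ r : ℤ, Hlg c (r • τ)

/-- The cap product of the cup product `a b` with `τ`. -/
noncomputable def cupCap (a b : Co ℤ T 1) (τ : Ch ℤ T 6) : Ch ℤ T 4 :=
  cap (show 2 + 4 = 6 from rfl) (cup (show 1 + 1 = 2 from rfl) a b) τ

/-- The cap product of `x₁x₂ + x₃x₄ + x₅x₆` with `τ`. -/
noncomputable def alpha (x : Fin 6 → Co ℤ T 1) (τ : Ch ℤ T 6) : Ch ℤ T 4 :=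
  cupCap (x 0) (x 1) τ + cupCap (x 2) (x 3) τ + cupCap (x 4) (x 5) τ

end mfd

/-- The six-torus, a classifying space of the free abelian group of rank six. -/
abbrev T6 : Type := Fin 6 → UnitAddCircle

/-- The standard loop in the `j`-th circle factor, as a singular one-simplex. -/
noncomputable def loop (j : Fin 6) : C(Std 1, T6) where
  toFun t := Pi.single j ((t.1 1 : ℝ) : UnitAddCircle)
  continuous_toFun := (continuous_single j).comp (continuous_quotient_mk'.comp
    ((continuous_apply 1).comp continuous_subtype_val))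

/-- `x` is a family of integral one-cocycles dual to the standard loops. -/
def IsDual (x : Fin 6 → Co ℤ T6 1) : Prop :=
  ∀ i, IsCoc (x i) ∧ ∀ j, val (x i) (Finsupp.single (loop j) 1) = if i = j then 1 else 0

end Pool.Agent.Lib.MP_18d288_gt
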