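import Pool.Agent.Lib.MP_18d288_gt.Torus
import Pool.Agent.Lib.MP_18d288_gt.Geo
import Pool.Agent.Shared.Sing.Bridge

/-! Spaces over tori with an isomorphism of fundamental groups; the class `alpha`. -/

set_option linter.unusedSectionVars false
set_option maxSynthPendingDepth 3

namespace Pool.Agent.Lib.MP_18d288_gt

open Finsupp Set Pool.Agent.Shared.Sing Pool.Agent.Shared.SingEZ

lemma closure_top {G ι : Type*} [Group G] [Fintype ι] [DecidableEq ι]
    (Ξ : ι → G →* Multiplicative ℝ) (hi : ∀ g, (∀ i, Ξ i g = 1) → g = 1)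
    (hz : ∀ i g, ∃ n : ℤ, Ξ i g = .ofAdd (n : ℝ)) (γ : ι → G)
    (hγ : ∀ i j, Ξ i (γ j) = .ofAdd (if i = j then 1 else 0)) (g : G) :
    g ∈ Subgroup.closure (range γ) := by
  choose n hn using fun i => hz i g
  have h : (Finset.univ.toList.map fun j => γ j ^ n j).prod ∈ Subgroup.closure (range γ) :=
    list_prod_mem fun x hx => by
      obtain ⟨j, -, rfl⟩ := List.mem_map.1 hx
      exact zpow_mem (Subgroup.subset_closure (mem_range_self j)) _
  refine mul_inv_eq_one.1 (hi (g * (Finset.univ.toList.map fun j => γ j ^ n j).prod⁻¹)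
    fun i => ?_) ▸ h
  rw [map_mul, map_inv, map_list_prod, List.map_map, Finset.prod_map_toList, hn, mul_inv_eq_one]
  simp [hγ, ← ofAdd_zsmul, ← ofAdd_sum]

variable {Y : Type*} [TopologicalSpace Y] [Nonempty Y] {κ : Type*} [Fintype κ] [DecidableEq κ]

lemma exists_loop [PathConnectedSpace Y] {φ : κ → C ℝ Y →ₗ[ℝ] ℝ} (hφ : ∀ i, Coc univ 1 (φ i))
    (o : Y) {c : C ℤ Y} (hc : c ∈ Z ℤ univ ∅ 1) :
    ∃ γ : Path o o, ∀ i, φ i (pc ℝ γ) = φ i (cR c) := by
  let P := PathConnectedSpace.somePath o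
  let A : AddSubgroup (C ℤ Y) :=
    { carrier := {c | ∃ γ : Path o o, ∀ i, φ i (pc ℝ γ) =
        φ i (cR c) - pv (fun y => φ i (pc ℝ (P y))) (D (cR c))}
      add_mem' := fun ⟨γ, h⟩ ⟨δ, h'⟩ => ⟨γ.trans δ, fun i => by
        simp only [pc_trans (hφ i), h, h', map_add]
        ring⟩
      zero_mem' := ⟨.refl o, fun i => by simp [pc_refl (hφ i)]⟩
      neg_mem' := fun ⟨γ, h⟩ => ⟨γ.symm, fun i => by
        simp only [pc_symm (hφ i), h, map_neg]
        ring⟩ }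
  obtain ⟨γ, h⟩ := mem_In (f := LinearMap.id) (P := A.toIntSubmodule) (fun F hF _ l hl => by
    obtain ⟨v, w, rfl⟩ := List.length_eq_two.1 hl
    refine ⟨((P _).trans ((Path.segment v w).map hF)).trans (P _).symm, fun i => ?_⟩
    rw [pc_trans (hφ i), pc_trans (hφ i), pc_symm (hφ i), LinearMap.id_apply, edge_eq_pc hF, cf_pc,
      D_pc, map_sub, pv_pt, pv_pt]
    ring) hc.1
  exact ⟨γ, fun i => by simpa [← cf_D, Z_D_eq hc] using h i⟩

/-- Winding numbers detect null-homotopic loops, and the loops `γ` are dual to them. -/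
structure Wd (f : κ → Y → UnitAddCircle) (x : Y) (γ : κ → Path x x) : Prop where
  cont : ∀ i, Continuous (f i)
  inj : ∀ δ : Path x x, (∀ i, xf (f i) (pc ℝ δ) = 0) → δ.Homotopic (Path.refl x)
  dual : ∀ i j, xf (f i) (pc ℝ (γ j)) = if i = j then 1 else 0

variable {f : κ → Y → UnitAddCircle} {x : Y} {γ : κ → Path x x}

lemma Wd.top (h : Wd f x γ) (g : FundamentalGroup Y x) :
    g ∈ Subgroup.closure (G := FundamentalGroup Y x) (range fun j => .mk (γ j)) := by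
  refine closure_top (fun i => piHom (Coc_xf (h.cont i)) x) ?_ ?_ _
    (fun i j => congrArg Multiplicative.ofAdd (h.dual i j)) g
  · rintro ⟨δ⟩ h1
    exact Path.Homotopic.Quotient.eq.2 (h.inj δ h1)
  · rintro i ⟨δ⟩
    exact (xf_int (h.cont i) (pc_Z δ)).imp fun n hn =>
      congrArg Multiplicative.ofAdd (cf_pc (Int.castRingHom ℝ) δ ▸ hn)

lemma Wd.dies [PathConnectedSpace Y] (h : Wd f x γ) {φ : C ℝ Y →ₗ[ℝ] ℝ} (hφ : Coc univ 1 φ) :
    Dies univ 1 (φ - ∑ j, φ (pc ℝ (γ j)) • xf (f j)) := by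
  have h1 := hφ.sub (Coc_sum Finset.univ fun j => Coc_smul (φ (pc ℝ (γ j))) (Coc_xf (h.cont j)))
  refine dies_of_loops h1 fun δ => (Subgroup.closure_le (piHom h1 x).ker).2 ?_ (h.top (.mk δ))
  rintro _ ⟨j, rfl⟩
  simp [piHom_mk, h.dual]

lemma null_of_dies {c : C ℝ Y} {u : κ → C ℝ Y →ₗ[ℝ] ℝ}
    (h : ∀ φ, Coc univ 1 φ → ∃ t : κ → ℝ, Dies univ 1 (φ - ∑ j, t j • u j))
    (hc : c ∈ Z ℝ univ ∅ 1) (h0 : ∀ i, u i c = 0) : c ∈ B ℝ univ ∅ 1 := by
  by_contra h1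
  obtain ⟨φ, h2, -, h3⟩ := exists_coc h1
  obtain ⟨t, ht⟩ := h φ h2
  simpa [h0, h3] using ht.apply_Z hc

variable {n : ℕ} {F : C(Y, Tor n)}

lemma xf_pc_map (i : Fin n) (δ : Path x x) :
    xf (fun t => t i) (pc ℝ (δ.map F.continuous)) = xf (fun y => F y i) (pc ℝ δ) := by
  rw [← map_pc, xf_map' F.continuous]
  rfl

lemma wd_of_bij (h : Function.Bijective (FundamentalGroup.map F x)) :
    ∃ γ, Wd (fun i y => F y i) x γ := by
  choose g hg using fun j => h.2 (.mk (wind (F x) (Pi.single j 1)))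
  choose γ hγ using fun j => Quot.exists_rep (g j)
  refine ⟨γ, fun i => by fun_prop, fun δ h1 => Path.Homotopic.Quotient.eq.1 (h.1 ?_),
    fun i j => ?_⟩
  · exact (Path.Homotopic.Quotient.eq.2 (null_tor fun i => (xf_pc_map i δ).trans (h1 i))).trans
      (map_one (FundamentalGroup.map F x)).symm
  · have := hg j
    rw [← hγ] at this
    rw [← xf_pc_map, pc_homotopic (Coc_xf (continuous_apply i))
      (Path.Homotopic.Quotient.eq.1 this), xf_wind]
    simp [Pi.single_apply]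

lemma bij_of_wd {γ : Fin n → Path x x} (h : Wd (fun i y => F y i) x γ) :
    Function.Bijective (FundamentalGroup.map F x) := by
  refine ⟨(injective_iff_map_eq_one _).2 ?_, fun g => (Subgroup.closure_le
    (FundamentalGroup.map F x).range).2 ?_ (Wd.top (γ := fun j => (γ j).map F.continuous)
      ⟨continuous_apply, fun _ => null_tor, fun i j => (xf_pc_map i _).trans (h.dual i j)⟩ g)⟩
  · rintro ⟨δ⟩ h1
    exact Path.Homotopic.Quotient.eq.2 (h.inj δ fun i => by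
      rw [← xf_pc_map, pc_homotopic (Coc_xf (continuous_apply i))
        (Path.Homotopic.Quotient.eq.1 h1), pc_refl (Coc_xf (continuous_apply i))])
  · rintro _ ⟨j, rfl⟩
    exact ⟨.mk (γ j), rfl⟩

lemma wd_tor (n : ℕ) : Wd (fun i (t : Tor n) => t i) 0 fun j => wind 0 (Pi.single j 1) :=
  ⟨continuous_apply, fun _ => null_tor, fun i j => by simp [xf_wind, Pi.single_apply]⟩

lemma ev_two {R : Type} [CommRing R] (a b : C R Y →ₗ[R] R) {c : C R Y} (hc : c ∈ In R univ 3) :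
    ev [a, b] c = cup 1 a b c := ev_one b (cap_In' (p := 1) a hc)

lemma ev_cap {y : κ → C ℤ Y →ₗ[ℤ] ℤ} (hf : ∀ i, Continuous (f i))
    (hd : ∀ i, Dies univ 1 (bc (Int.castRingHom ℝ) (y i) - xf (f i))) (a b : κ) (I : List κ)
    {T : C ℤ Y} (hT : T ∈ Z ℤ univ ∅ (2 + I.length)) :
    ev (I.map fun i => xf (f i)) (cR (cap 2 (ev [y a, y b]) T)) =
      ev ((a :: b :: I).map fun i => xf (f i)) (cR T) := by
  have := (Coc_ev' (fun i => Coc_xf (hf i)) I).apply_B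
    ((Dies_ev (fun i => Coc_xf (hf i)) hd a [b]).cap_B (cf_Z (Int.castRingHom ℝ) hT))
  rw [cap_sub, map_sub, sub_eq_zero, ← bc_ev, ← cf_cap] at this
  exact this.trans (DFunLike.congr_fun (cup_ev [xf (f a), xf (f b)] _) _)

/-- The words of length four in the classes of `f` take the values of the Pfaffian on `ζ`. -/
def Prs (f : Fin 6 → Y → UnitAddCircle) (ζ : C ℝ Y) (r : ℝ) : Prop :=
  ∀ i j k l : Fin 6, ev [xf (f i), xf (f j), xf (f k), xf (f l)] ζ = r * Pf i j k l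

lemma br_loop (j : Fin 6) : br ℤ 1 (single (loop j) 1) = pc ℤ (wind 0 (Pi.single j 1)) := by
  rw [br_single, pc, real_single]
  refine congrArg (single · 1) (mk_eq_sx _ fun t => ?_).symm
  have h : aff [(0 : ℝ), 1] (exV 1 t) = t.1 1 := by
    simp [aff_apply, Finset.sum_range_succ, exV]
  rw [Function.comp_apply, h, Path.extend_apply _ ⟨t.2.1 1, stdSimplex.le_one t 1⟩]
  ext i
  by_cases hi : i = j <;> simp [wind, loop, hi]

lemma exists_top : ∃ a : C ℤ T6 →ₗ[ℤ] ℤ, Coc univ 6 a ∧ a (tau 6) = 1 ∧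
    ∀ c ∈ Z ℤ univ ∅ 6, a c = 0 → c ∈ B ℤ univ ∅ 6 := by
  obtain ⟨a, h1, h2⟩ := exists_int_word (cont_xN 6) (List.range 6)
  refine ⟨a, h1, ?_, fun c hc h => det_tor 6 6 c hc fun I hI hl => ?_⟩
  · exact_mod_cast ((h2 _ (tau_Z 6)).symm.trans (ev_tau 6 _ rfl)).trans (congrArg _ dt_six)
  · rw [hI.eq_of_length hl, h2 c hc, h, Int.cast_zero]

lemma exists_gen_dual :
    ∃ (τ : Sing.Ch ℤ T6 6) (x : Fin 6 → Sing.Co ℤ T6 1), IsGen τ ∧ IsDual x := by
  obtain ⟨a, h1, h2, h3⟩ := exists_top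
  obtain ⟨τ, h4, h5⟩ := exists_cyc (tau_Z 6)
  choose y h6 h7 using fun i => exists_int (f := fun t : T6 => t i) (continuous_apply i)
  refine ⟨τ, fun i => y i ∘ₗ br ℤ 1, ⟨h4, fun c hc => ⟨a (br ℤ 6 c), br_mem_B.1 (h3 _
    (br_mem_Z.2 (sub_mem hc (Submodule.smul_mem _ _ h4))) (by simp [h5, h2]))⟩⟩,
    fun i => ⟨comp_br_mem_cocyc.2 (h6 i), fun j => ?_⟩⟩
  have := (h7 i).apply_Z (pc_Z (wind 0 (Pi.single j 1)))
  rw [LinearMap.sub_apply, (wd_tor 6).dual, ← cf_pc (Int.castRingHom ℝ), bc_cf, sub_eq_zero] at this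
  rw [val, LinearMap.comp_apply, br_loop]
  exact Int.cast_injective (α := ℝ) (this.symm.trans (by simp))

lemma alpha_spec {τ : Sing.Ch ℤ T6 6} {x : Fin 6 → Sing.Co ℤ T6 1} (hτ : IsGen τ) (hx : IsDual x) :
    ∃ ε : ℤ, (ε = 1 ∨ ε = -1) ∧ br ℤ 4 (alpha x τ) ∈ Z ℤ univ ∅ 4 ∧
      Prs (fun i t => t i) (cR (br ℤ 4 (alpha x τ))) ε := by
  obtain ⟨a, h1, h2, -⟩ := exists_top
  obtain ⟨t, h4, h5⟩ := exists_cyc (tau_Z 6)
  obtain ⟨r, hr⟩ := hτ.2 t h4
  rw [Hlg, ← br_mem_B, map_sub, map_smul, h5] at hr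
  have hT := br_mem_Z.2 hτ.1
  have h6 := h1.apply_B hr
  rw [map_sub, h2, map_smul, sub_eq_zero] at h6
  have hε := Int.eq_one_or_neg_one_of_mul_eq_one h6.symm
  let y := fun i => x i ∘ₗ rb ℤ 1
  have hy : ∀ i, Coc univ 1 (y i) := fun i => coc_comp_rb.2 (hx i).1
  have hd : ∀ i, Dies univ 1 (bc (Int.castRingHom ℝ) (y i) - xf fun t => t i) := fun i => by
    simpa [← cf_pc (Int.castRingHom ℝ), bc_cf, ← br_loop, y, show ∀ j, x i _ = _ from (hx i).2,
      -br_single] using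
      (wd_tor 6).dies (bc_coc (Int.castRingHom ℝ) (hy i))
  have e' : ∀ a b, br ℤ 4 (cupCap (x a) (x b) τ) = cap 2 (ev [y a, y b]) (br ℤ 6 τ) := fun a b => by
    rw [cupCap, br_cap']
    exact cap_congr (fun c hc => by simp [cup_eq_comp_br, br_rb hc, ev_two _ _ hc, y]) hT.1
  have e : br ℤ 4 (alpha x τ) = cap 2 (ev [y 0, y 1]) (br ℤ 6 τ) +
      cap 2 (ev [y 2, y 3]) (br ℤ 6 τ) + cap 2 (ev [y 4, y 5]) (br ℤ 6 τ) := by
    rw [alpha, map_add, map_add, e', e', e']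
  have h7 : ∀ a b, cap 2 (ev [y a, y b]) (br ℤ 6 τ) ∈ Z ℤ univ ∅ 4 := fun a b =>
    cap_Z (Coc_ev' hy [a, b]) hT
  have h8 : ∀ I : List (Fin 6), I.length = 6 → ev (I.map fun i => xf fun t => t i)
      (cR (br ℤ 6 τ)) = r * dt 6 (I.map (↑)) := fun I hI => by
    have := (Coc_ev' (fun i => Coc_xf (f := fun t : T6 => t i) (continuous_apply i)) I).apply_B
      (c := cR (tau 6 - r • br ℤ 6 τ)) (by rw [hI]; exact cf_B _ hr)
    rw [map_sub, map_sub, cf_smul, map_smul, sub_eq_zero] at this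
    rw [← ev_tau 6 _ (by simpa), List.map_map, List.map_congr_left
      (f := (fun i => xf (xN 6 i)) ∘ Fin.val) fun i _ => congrArg xf (xN_fin i), this]
    rcases hε with rfl | rfl <;> simp
  refine ⟨r, hε, e ▸ add_mem (add_mem (h7 _ _) (h7 _ _)) (h7 _ _), fun i j k l => ?_⟩
  have h9 := fun a b => (ev_cap continuous_apply hd a b [i, j, k, l] hT).trans (h8 _ rfl)
  rw [e, map_add, map_add, map_add, map_add, ← dt_pf]
  exact (congrArg₂ _ (congrArg₂ _ (h9 0 1) (h9 2 3)) (h9 4 5)).trans (by simp [mul_add])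

end Pool.Agent.Lib.MP_18d288_gt
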