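import Pool.Agent.Shared.Sing.Defs

/-! Auxiliary invariants of four-manifolds. -/

namespace Pool.Agent.Lib.MP_18d288_gt

open Pool.Agent.Sing

variable (M : Type) [TopologicalSpace M]

/-- The largest dimension of a subspace of real two-dimensional cohomology on which the form
sending `a` to the value of the cup square of `a` on `μ` is positive definite. -/
noncomputable def bPlus (μ : Ch ℤ M 4) : ℕ :=
  sSup {n | ∃ P : Submodule ℝ (Coh ℝ M 2), Module.finrank ℝ P = n ∧
    ∀ a : cocyc ℝ M 2, ccl ℝ M 2 a ∈ P → ccl ℝ M 2 a ≠ 0 →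
      0 < cup (show 2 + 2 = 4 from rfl) a.1 a.1 (μ.mapRange Int.cast Int.cast_zero)}

/-- The Euler characteristic of a four-manifold. -/
noncomputable def chi : ℤ := ∑ k ∈ Finset.range 5, (-1) ^ k * (Module.finrank ℝ (Hml ℝ M k) : ℤ)

end Pool.Agent.Lib.MP_18d288_gt
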