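import Pool.Agent.Lib.MP_18d288_gt.Cls
import Pool.Agent.Lib.MP_18d288_gt.Betti

/-! Definite subspaces of the intersection form; invariants of the manifolds in the class. -/

set_option linter.unusedSectionVars false
set_option maxSynthPendingDepth 3

namespace Pool.Agent.Lib.MP_18d288_gt

open Set Pool.Agent.Shared.Sing Pool.Agent.Shared.SingEZ

variable {M : Type} [TopologicalSpace M] [Nonempty M] {μ : Sing.Ch ℤ M 4}

lemma mem_le_bPlus (hfin : Module.Finite ℝ (Sing.Coh ℝ M 2)) (hμ : IsCyc μ) :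
    bPlus M μ ∈ upperBounds {n | ∃ P ≤ Sing.cocyc ℝ M 2, Module.finrank ℝ P = n ∧ ∀ a ∈ P, a ≠ 0 →
      0 < val (Sing.cup (show 2 + 2 = 4 from rfl) a a) (μ.mapRange Int.cast Int.cast_zero)} := by
  rintro _ ⟨P, h1, rfl, h2⟩
  by_cases h : Module.Finite ℝ P
  · let b := Module.finBasis ℝ P
    simpa using le_bPlus hfin hμ (fun i => (b i).1 ∘ₗ rb ℝ 2)
      (fun i => coc_comp_rb.2 (h1 (b i).2)) fun t ht => by
        have := h2 _ (b.equivFun.symm t).2 fun h => b.equivFun.symm.map_ne_zero_iff.2 ht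
          (Subtype.ext h)
        rw [val, cup_eq_comp_br, LinearMap.comp_apply, br_cast] at this
        convert this <;> exact LinearMap.ext fun c => by simp
  · simp [Module.finrank_of_not_finite h]

lemma bPos_le (hfin : Module.Finite ℝ (Sing.Coh ℝ M 2)) (hμ : IsCyc μ) : bPos μ ≤ bPlus M μ :=
  csSup_le' (mem_le_bPlus hfin hμ)

lemma le_bPos (hfin : Module.Finite ℝ (Sing.Coh ℝ M 2)) (hμ : IsCyc μ) {ι : Type} [Fintype ι]
    (w : ι → C ℝ M →ₗ[ℝ] ℝ) (hw : ∀ i, Coc univ 2 (w i)) (hpos : ∀ t : ι → ℝ, t ≠ 0 →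
      0 < cup 2 (∑ i, t i • w i) (∑ i, t i • w i) (cR (br ℤ 4 μ))) : Fintype.card ι ≤ bPos μ := by
  let T := Fintype.linearCombination ℝ fun i => w i ∘ₗ br ℝ 2
  have hT : ∀ t, T t = (∑ i, t i • w i) ∘ₗ br ℝ 2 := fun t => LinearMap.ext fun c => by
    simp [T, Fintype.linearCombination_apply]
  have h1 : ∀ t, t ≠ 0 → 0 < val (Sing.cup (show 2 + 2 = 4 from rfl) (T t) (T t))
      (μ.mapRange Int.cast Int.cast_zero) := fun t ht => by
    rw [val, hT, cup_comp_br, LinearMap.comp_apply, br_cast]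
    exact hpos t ht
  refine le_csSup ⟨_, mem_le_bPlus hfin hμ⟩ ⟨LinearMap.range T, ?_, ?_, ?_⟩
  · rintro _ ⟨t, rfl⟩
    exact hT t ▸ comp_br_mem_cocyc.2 (coc_comb w hw t)
  · simpa using LinearMap.finrank_range_of_inj ((injective_iff_map_eq_zero T).2 fun t ht =>
      by_contra fun h => by
        simpa [ht, val, Sing.cup, Finsupp.linearCombination_apply] using h1 t h)
  · rintro _ ⟨t, rfl⟩ h
    exact h1 t fun h0 => h (by rw [h0, map_zero])

variable {Y : Type*} [TopologicalSpace Y] [Nonempty Y] {ι κ : Type} [Fintype ι] [Fintype κ]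
  [DecidableEq κ] (w : ι → C ℝ Y →ₗ[ℝ] ℝ) (A : Matrix ι κ ℤ)

lemma cup_sum (t t' : ι → ℝ) (ζ : C ℝ Y) : cup 2 (∑ a, t a • w a) (∑ b, t' b • w b) ζ =
    ∑ a, ∑ b, t a * t' b * cup 2 (w a) (w b) ζ := by
  simp only [← cupB_apply, map_sum, map_smul, LinearMap.sum_apply, LinearMap.smul_apply,
    smul_eq_mul, Finset.mul_sum]
  rw [Finset.sum_comm]
  simp only [mul_assoc, mul_left_comm]

lemma sum_comb (s : κ → ℝ) : ∑ a, (A.map (↑)).mulVecLin s a • w a =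
    ∑ k, s k • ∑ a, (A a k : ℝ) • w a := by
  simp only [Matrix.mulVecLin_apply, Matrix.mulVec, dotProduct, Finset.sum_smul, Finset.smul_sum,
    smul_smul, Matrix.map_apply, mul_comm]
  exact Finset.sum_comm

lemma neg_def {ζ : C ℝ Y} {G : ι → ι → ℤ} {r : ℝ} (hr : 0 < r)
    (hG : ∀ a b, cup 2 (w a) (w b) ζ = r * G a b) (d : κ → ℕ)
    (hA : ∀ k l, ∑ a, ∑ b, A a k * A b l * G a b = if k = l then -(d k + 1 : ℤ) else 0)
    (s : κ → ℝ) (hs : s ≠ 0) :
    cup 2 (∑ k, s k • ∑ a, (A a k : ℝ) • w a) (∑ k, s k • ∑ a, (A a k : ℝ) • w a) ζ < 0 := by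
  have h : ∀ k l, cup 2 (∑ a, (A a k : ℝ) • w a) (∑ a, (A a l : ℝ) • w a) ζ =
      r * if k = l then -(d k + 1 : ℝ) else 0 := fun k l => by
    have := congrArg (Int.cast : ℤ → ℝ) (hA k l)
    push_cast at this
    simp only [cup_sum, hG, ← this, Finset.mul_sum, mul_left_comm]
  obtain ⟨k, hk⟩ := Function.ne_iff.1 hs
  simp only [cup_sum (fun k => ∑ a, (A a k : ℝ) • w a), h, mul_ite, mul_zero, Finset.sum_ite_eq,
    Finset.mem_univ, if_true, mul_neg, Finset.sum_neg_distrib, neg_lt_zero]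
  exact Finset.sum_pos' (fun i _ => mul_nonneg (mul_self_nonneg _) (by positivity))
    ⟨k, Finset.mem_univ _, mul_pos (mul_self_pos.2 hk) (by positivity)⟩

/-- Ordered pairs of indices. -/
abbrev Pr : Type := {p : Fin 6 × Fin 6 // p.1 < p.2}

/-- The six anti-self-dual classes that mix two planes. -/
def mix (k : ℕ) (p : Pr) : ℤ :=
  if [k, p.1.1, p.1.2] ∈ [[0, 0, 2], [0, 1, 3], [1, 0, 3], [2, 0, 4], [2, 1, 5], [3, 0, 5],
    [4, 2, 4], [4, 3, 5], [5, 2, 5]] then 1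
  else if [k, p.1.1, p.1.2] ∈ [[1, 1, 2], [3, 1, 4], [5, 3, 4], [6, 0, 1], [7, 2, 3], [8, 4, 5]]
    then -1 else 0

/-- Eight orthogonal negative classes. -/
def A8 (p : Pr) (k : Fin 8) : ℤ :=
  if k = 6 then mix 6 p - mix 7 p else if k = 7 then mix 6 p + mix 7 p - 2 * mix 8 p else mix k p

lemma gram8 : ∀ k l : Fin 8, ∑ a, ∑ b, A8 a k * A8 b l * Pf a.1.1 a.1.2 b.1.1 b.1.2 =
    if k = l then -(((if k = 7 then 5 else 1 : ℕ) : ℤ) + 1) else 0 := by decide +kernel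

lemma eight_le (hfin : Module.Finite ℝ (Sing.Coh ℝ M 2)) (hμ : IsCyc μ)
    {f : Fin 6 → M → UnitAddCircle} (hf : ∀ i, Continuous (f i))
    (h : Prs f (cR (br ℤ 4 μ)) (-1)) : 8 ≤ bPos μ := by
  refine (Fintype.card_fin 8).ge.trans (le_bPos hfin hμ
    (fun k => ∑ a : Pr, (A8 a k : ℝ) • ev [xf (f a.1.1), xf (f a.1.2)])
    (fun k => coc_comb (fun a : Pr => ev [xf (f a.1.1), xf (f a.1.2)])
      (fun a => Coc_ev' (fun i => Coc_xf (hf i)) [a.1.1, a.1.2]) _) fun t ht => ?_)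
  simpa only [map_neg, neg_lt_zero] using neg_def _ A8 (ζ := -cR (br ℤ 4 μ)) one_pos (fun a b => by
    rw [map_neg, show cup 2 _ _ = _ from cup_ev [_, _] [_, _]]
    simpa [neg_eq_iff_eq_neg] using h a.1.1 a.1.2 b.1.1 b.1.2) _ gram8 t ht

variable {F : C(M, T6)} {α : Sing.Ch ℤ T6 4} {r : ℝ}

lemma Prs.smul {f : Fin 6 → M → UnitAddCircle} (h : Prs f (cR (br ℤ 4 μ)) r) (n : ℤ) :
    Prs f (cR (br ℤ 4 (n • μ))) (n * r) := fun i j k l => by
  rw [map_smul, cf_smul, map_smul, h, mul_assoc]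
  rfl

lemma ev_push (I : List (Fin 6)) : ev (I.map fun i => xf fun t => t i)
    (cR (br ℤ 4 (Sing.push ℤ F 4 μ))) = ev (I.map fun i => xf fun y => F y i) (cR (br ℤ 4 μ)) := by
  rw [br_push, ev_xf_map F.continuous]
  rfl

lemma Prs.pull (h : Prs (fun i t => t i) (cR (br ℤ 4 α)) r) (h1 : Hlg (Sing.push ℤ F 4 μ) α) :
    Prs (fun i y => F y i) (cR (br ℤ 4 μ)) r := fun i j k l => by
  have := (Coc_ev' (fun i => Coc_xf (f := fun t : T6 => t i) (continuous_apply i))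
    [i, j, k, l]).apply_B (cf_B (Int.castRingHom ℝ) (br_mem_B.2 h1))
  rw [map_sub, map_sub, map_sub, sub_eq_zero] at this
  exact ((ev_push _).symm.trans this).trans (h i j k l)

lemma Prs.hlg (h : Prs (fun i t => t i) (cR (br ℤ 4 α)) r) (hα : IsCyc α)
    (h1 : Prs (fun i y => F y i) (cR (br ℤ 4 μ)) r) (hμ : IsCyc μ) :
    Hlg (Sing.push ℤ F 4 μ) α := by
  refine br_mem_B.1 (det_tor 6 4 _ (by
    rw [map_sub, br_push]
    exact sub_mem (map_Z' F.continuous (br_mem_Z.2 hμ)) (br_mem_Z.2 hα)) fun I hI hl => ?_)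
  lift I to List (Fin 6) using fun i hi => List.mem_range.1 (hI.subset hi)
  rw [List.map_map, List.map_congr_left (f := (fun i => xf (xN 6 i)) ∘ Fin.val)
    fun i _ => congrArg xf (xN_fin i), map_sub, map_sub, map_sub, ev_push, sub_eq_zero]
  obtain ⟨i, j, k, l, rfl⟩ := List.length_eq_four.1 (by simpa using hl)
  exact (h1 i j k l).trans (h i j k l).symm

lemma Prs.not_B {f : Fin 6 → M → UnitAddCircle} (hf : ∀ i, Continuous (f i)) {ζ : C ℝ M}
    (h : Prs f ζ r) (hr : r ≠ 0) : ζ ∉ B ℝ univ ∅ 4 := fun h1 => hr (by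
  simpa [Pf, Jn] using (h 0 1 2 3).symm.trans
    ((Coc_ev' (fun i => Coc_xf (hf i)) [0, 1, 2, 3]).apply_B h1))

/-- The invariants of a manifold in the class. -/
theorem cls_bound [T2Space M] [CompactSpace M] [PathConnectedSpace M] (hM : LocEuc (Fin 4) M)
    (hμ : IsCyc μ) {x : M} (hx : PiIso F x) {ε : ℤ} (hε : ε = 1 ∨ ε = -1)
    (h : Prs (fun i y => F y i) (cR (br ℤ 4 μ)) ε) :
    Module.Finite ℝ (Sing.Coh ℝ M 2) ∧ euler M = Module.finrank ℝ (Sing.Coh ℝ M 2) - 10 ∧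
      8 ≤ bPos (-ε • μ) ∧ bPos μ + bPos (-μ) ≤ Module.finrank ℝ (Sing.Coh ℝ M 2) := by
  obtain ⟨γ, h1⟩ := wd_of_bij hx
  have h2 := cf_Z (Int.castRingHom ℝ) (br_mem_Z.2 hμ)
  have h5 := h.not_B h1.cont (by rcases hε with rfl | rfl <;> simp)
  have h6 := fund_of_cycle hM (c := cR (br ℤ 4 μ)) h2 h5
  obtain ⟨h3, h4⟩ := chi_eq hM h2 h6
    (fun i => xf fun y => F y i) (fun j => pc ℝ (γ j)) (fun i => Coc_xf (h1.cont i))
    (fun j => pc_Z (γ j)) h1.dual fun c => null_of_dies fun φ hφ => ⟨_, h1.dies hφ⟩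
  have h7 : euler M = Module.finrank ℝ (Sing.Coh ℝ M 2) - 10 := h4.trans (by push_cast; ring)
  have h8 := (add_le_add (bPos_le h3 hμ) (bPos_le h3 (neg_mem hμ))).trans (bPlus_add_le h3 μ)
  refine ⟨h3, h7, eight_le h3 (Submodule.smul_mem _ _ hμ) h1.cont ?_, h8⟩
  have := h.smul (-ε)
  rcases hε with rfl | rfl <;> simpa using this

end Pool.Agent.Lib.MP_18d288_gt
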