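import Pool.Agent.Lib.MP_18d288_gt.Torus
import Pool.Agent.Lib.MP_c77dc5_gt.Conn

/-! The homology of connected sums of surfaces; the surface of genus three. -/

set_option linter.unusedSectionVars false
set_option maxSynthPendingDepth 3

namespace Pool.Agent.Lib.MP_18d288_gt

open Finsupp Set Metric Topology Pool.Agent.Shared.Sing Pool.Agent.Shared.SingEZ
open Pool.Agent.Lib.MP_c77dc5_gt (Half col col_cont col_apply col_ne connSum_half ConnSum)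

variable {Y : Type*} [TopologicalSpace Y] [Nonempty Y]

lemma joined_of_In {A : Set Y} {x y : Y} (hx : x ∈ A) {v : C ℤ Y} (hv : v ∈ In ℤ A 2)
    (h : D v = pt ℤ y - pt ℤ x) : JoinedIn A x y := by
  classical
  have := eq_edge (f := pv (fun y => if JoinedIn A x y then (1 : ℤ) else 0) ∘ₗ D) (g := 0)
    (fun F hF hA v w => by
      have h1 : JoinedIn A (F v) (F w) := ⟨(Path.segment v w).map hF, fun _ => hA _⟩
      rw [LinearMap.comp_apply, D_edge hF, map_sub, pv_pt, pv_pt,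
        if_congr ⟨fun h => h.trans h1.symm, fun h => h.trans h1⟩ rfl rfl]
      simp) hv
  by_contra h'
  simp [h, h', JoinedIn.refl hx] at this

lemma pathConn_compl [T2Space Y] [PathConnectedSpace Y] (hY : LocEuc (Fin 2) Y) {p q : Y}
    (hq : q ≠ p) : IsPathConnected ({p}ᶜ : Set Y) := by
  refine ⟨q, hq, fun y hy => ?_⟩
  obtain ⟨w, -, h⟩ := mem_B (loc_low (R := ℤ) hY p (n := 1) (by simp)
    ⟨pc_In (γ := PathConnectedSpace.somePath q y) fun _ => trivial, by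
      rw [SetLike.mem_coe, Submodule.mem_comap, D_pc]
      exact sub_mem (pt_In hy) (pt_In hq)⟩)
  exact joined_of_In hq h (by simp [D_pc])

lemma gen_unique {ι : Type*} [Fintype ι] [T2Space Y] (hY : LocEuc ι Y) {x : Y} {b b' : C ℤ Y}
    (hb : b ∈ Z ℤ univ {x}ᶜ (Fintype.card ι)) (hb' : b' ∈ Z ℤ univ {x}ᶜ (Fintype.card ι))
    (h : Gen (Fintype.card ι) b x) (h' : Gen (Fintype.card ι) b' x) :
    ∃ ε : ℤ, (ε = 1 ∨ ε = -1) ∧ b - ε • b' ∈ B ℤ univ {x}ᶜ (Fintype.card ι) := by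
  obtain ⟨g, hg, h1, -⟩ := loc_mfd (R := ℤ) hY x
  obtain ⟨r, hr⟩ := h' b hb
  obtain ⟨r', hr'⟩ := h b' hb'
  obtain ⟨s, hs⟩ := h g hg
  refine ⟨r, Int.eq_one_or_neg_one_of_mul_eq_one (sub_eq_zero.1 (h1 (1 - r * r') ?_)).symm, hr⟩
  convert add_mem (Submodule.smul_mem _ (1 - r * r') hs) (Submodule.smul_mem _ s
    (add_mem hr (Submodule.smul_mem _ r hr'))) using 1
  module

/-- The plane. -/
abbrev E2 : Type := EuclideanSpace ℝ (Fin 2)

/-- The punctured disc. -/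
def Pd : Set E2 := ball 0 1 ∩ {0}ᶜ

lemma locEuc_E2 : LocEuc (Fin 2) E2 := fun _ =>
  ⟨(EuclideanSpace.equiv (Fin 2) ℝ).toHomeomorph.toOpenPartialHomeomorph, trivial⟩

lemma pathConn_Pd : IsPathConnected Pd := by
  have := (isPathConnected_compl_singleton_of_one_lt_rank (E := E2) (by
    rw [← Module.finrank_eq_rank]; simp) 0).image
    (continuousOn_univ.1 OpenPartialHomeomorph.univUnitBall.continuousOn)
  suffices h : Pd = _ from h ▸ this
  refine subset_antisymm (fun v hv => ?_) ?_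
  · have h1 := OpenPartialHomeomorph.univUnitBall.right_inv hv.1
    refine ⟨_, fun h => hv.2 ?_, h1⟩
    rw [← h1, mem_singleton_iff.1 h]
    simp
  · rintro _ ⟨v, hv, rfl⟩
    refine ⟨OpenPartialHomeomorph.univUnitBall.map_source trivial, fun h => hv ?_⟩
    rw [← OpenPartialHomeomorph.univUnitBall.left_inv (x := v) trivial, mem_singleton_iff.1 h]
    simp

/-- The inversion of the punctured disc. -/
noncomputable abbrev fl : E2 → E2 := Pool.Agent.Lib.MP_c77dc5_gt.flip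

lemma Pd_norm {v : E2} (hv : v ∈ Pd) : 0 < ‖v‖ ∧ ‖v‖ < 1 :=
  ⟨norm_pos_iff.2 hv.2, mem_ball_zero_iff.1 hv.1⟩

lemma fl_eq {v : E2} (hv : v ∈ Pd) : fl v = ((1 - ‖v‖) / ‖v‖) • v := by
  rw [fl, Pool.Agent.Lib.MP_c77dc5_gt.flip, max_eq_left (sub_nonneg.2 (Pd_norm hv).2.le)]

lemma fl_htpy {q : E2 × ℝ} (hq : q ∈ Pd ×ˢ Icc (0 : ℝ) 1) :
    ((1 - q.2) + q.2 * ((1 - ‖q.1‖) / ‖q.1‖)) • q.1 ∈ Pd := by
  obtain ⟨h1, h2⟩ := Pd_norm hq.1
  obtain ⟨h3, h4⟩ := hq.2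
  have h5 := (convex_Ioo (0 : ℝ) 1) ⟨h1, h2⟩ ⟨sub_pos.2 h2, sub_lt_self 1 h1⟩ (sub_nonneg.2 h4) h3
    (by simp)
  have h6 : 0 ≤ (1 - q.2) + q.2 * ((1 - ‖q.1‖) / ‖q.1‖) := by
    have := sub_nonneg.2 h4
    have := sub_pos.2 h2
    positivity
  have h7 : ‖((1 - q.2) + q.2 * ((1 - ‖q.1‖) / ‖q.1‖)) • q.1‖ =
      (1 - q.2) • ‖q.1‖ + q.2 • (1 - ‖q.1‖) := by
    rw [norm_smul, Real.norm_of_nonneg h6, smul_eq_mul, smul_eq_mul]
    field_simp
  exact ⟨mem_ball_zero_iff.2 (h7 ▸ h5.2), norm_pos_iff.1 (h7 ▸ h5.1)⟩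

lemma fl_mem {v : E2} (hv : v ∈ Pd) : fl v ∈ Pd := by
  simpa [fl_eq hv] using fl_htpy (q := (v, 1)) ⟨hv, by simp⟩

lemma fl_fl {v : E2} (hv : v ∈ Pd) : fl (fl v) = v := by
  obtain ⟨h1, h2⟩ := Pd_norm hv
  have := sub_pos.2 h2
  rw [fl_eq (fl_mem hv), fl_eq hv, norm_smul, Real.norm_of_nonneg (by positivity), smul_smul,
    div_mul_cancel₀ _ h1.ne', show (1 - (1 - ‖v‖)) / (1 - ‖v‖) * ((1 - ‖v‖) / ‖v‖) = 1 by
      field_simp; ring, one_smul]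

lemma fl_B {n : ℕ} {c : C ℤ E2} (hc : c ∈ Z ℤ Pd ∅ n) : map fl c - c ∈ B ℤ Pd ∅ n := by
  have := htpy_B (H := fun q : E2 × ℝ => ((1 - q.2) + q.2 * ((1 - ‖q.1‖) / ‖q.1‖)) • q.1)
    (A := Pd) (A' := ∅) (ContinuousOn.smul (ContinuousOn.add (by fun_prop) (ContinuousOn.mul
      (by fun_prop) (ContinuousOn.div (by fun_prop) (by fun_prop) fun q hq =>
        (Pd_norm hq.1).1.ne'))) (by fun_prop)) (empty_subset _) (fun _ => fl_htpy)
    (fun q hq => hq.1.elim) hc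
  rwa [map_congr (g' := fl) (fun y hy => by simp [fl_eq hy]) hc.1,
    map_self (g := fun y => _ • _) (fun y _ => by simp) hc.1] at this

variable {M M₁ M₂ X : Type*} [TopologicalSpace M] [TopologicalSpace M₁] [TopologicalSpace M₂]
  [TopologicalSpace X] [T2Space M] [T2Space M₁] [T2Space M₂] [Nonempty M] [Nonempty M₁]
  [Nonempty M₂] [Nonempty X]

lemma range_B {e : E2 → M} (he : IsOpenEmbedding e) {n : ℕ} {c : C ℤ M}
    (hc : c ∈ In ℤ (range e) (n + 1)) (h0 : D c = 0) : c ∈ B ℤ univ ∅ n := by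
  obtain ⟨h, H⟩ := contr_star (R := ℤ) (mem_univ (0 : E2)) (starConvex_univ 0)
  have h1 := (he.toOpenPartialHomeomorph e).continuousOn_symm
  rw [he.toOpenPartialHomeomorph_target] at h1
  have := map_Bd he.continuous.continuousOn (mapsTo_univ _ _)
    (H.bd (map_In h1 (mapsTo_univ _ _) hc) (by rw [← map_D h1 hc, h0, map_zero]))
  rw [map_map h1 hc, map_self (g := e ∘ (he.toOpenPartialHomeomorph e).symm)
    (fun x hx => he.toOpenPartialHomeomorph_right_inv e hx) hc] at this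
  exact Submodule.mem_sup_left this

lemma exists_cut {e : E2 → M} (he : IsOpenEmbedding e) {z : C ℤ M} (hz : z ∈ Z ℤ univ ∅ 2)
    (hg : Gen 2 z (e 0)) : ∃ a ∈ In ℤ {e 0}ᶜ 3, ∃ β ∈ Z ℤ (ball 0 1) Pd 2, Gen 2 β 0 ∧
      D a = -map e (D β) ∧ z - (a + map e β) ∈ B ℤ univ ∅ 2 := by
  obtain ⟨m, a, ha, hb⟩ := small_ex (isOpen_compl_singleton (x := e 0))
    (he.isOpenMap _ (isOpen_ball (x := 0) (ε := 1))) (c := z) (n := 3) (by
      rw [eq_univ_of_forall (s := {e 0}ᶜ ∪ e '' ball 0 1) fun x => (em (x = e 0)).elim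
        (fun h => .inr (h ▸ mem_image_of_mem e (mem_ball_self one_pos))) .inl]
      exact hz.1)
  let κ := he.toOpenPartialHomeomorph e
  have h1 : ContinuousOn κ.symm (e '' ball 0 1) :=
    κ.continuousOn_symm.mono (by simp [κ])
  have h2 : ∀ v, κ.symm (e v) = v := fun v => he.toOpenPartialHomeomorph_left_inv e
  have h3 : D ((sd ^ m) z - a) = -D a := by simp [D_sd, Z_D_eq hz]
  have h4 : map e (map κ.symm ((sd ^ m) z - a)) = (sd ^ m) z - a := by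
    rw [map_map h1 hb]
    refine map_self ?_ hb
    rintro _ ⟨v, -, rfl⟩
    simp [h2]
  have h5 : map κ.symm ((sd ^ m) z - a) ∈ Z ℤ (ball 0 1) Pd 2 :=
    map_Z (U := e '' ball 0 1 ∩ {e 0}ᶜ) h1 inter_subset_left
      (by rintro _ ⟨v, hv, rfl⟩; rwa [h2]) (by
      rintro _ ⟨⟨v, hv, rfl⟩, h⟩
      rw [h2]
      exact ⟨hv, fun h' => h (congrArg e h')⟩)
      ⟨hb, In_inter (D_In hb) (by rw [h3]; exact neg_mem (D_In ha))⟩
  have h6 := sub_sd hz m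
  refine ⟨a, ha, _, h5, fun c hc => ?_, by rw [map_D' he.continuous, h4, h3, neg_neg],
    by rw [h4]; simpa using h6⟩
  obtain ⟨r, hr⟩ := hg _ (map_Z (U := {0}ᶜ) he.continuous.continuousOn (subset_univ _)
    (mapsTo_univ _ _) (fun v hv h => hv (he.injective h)) hc)
  refine ⟨r, (chart_pt κ (mem_singleton 0) trivial (by
    simpa [κ] using sub_mem hc (Submodule.smul_mem _ r
      (Z_mono (subset_univ _) inter_subset_right h5)))).2 ?_⟩
  rw [show ⇑κ = e from rfl, map_sub, map_smul, h4]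
  convert add_mem hr (Submodule.smul_mem _ r (add_mem (B_mono le_rfl (empty_subset _) h6)
    (In_mem_B ha))) using 1
  module

variable {e₁ : E2 → M₁} {e₂ : E2 → M₂} {f₁ : X → M₁} {f₂ : X → M₂} {g₁ : M₁ → X} {g₂ : M₂ → X}

/-- One half of a connected sum with the inverse of its chart. -/
structure Hf (e₁ : E2 → M₁) (e₂ : E2 → M₂) (f₁ : X → M₁) (f₂ : X → M₂) (g₁ : M₁ → X) : Prop
    extends Half e₁ e₂ f₁ f₂ where
  gc : ContinuousOn g₁ {e₁ 0}ᶜ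
  fg : ∀ y, y ≠ e₁ 0 → f₁ (g₁ y) = y
  gf : ∀ x, f₁ x ≠ e₁ 0 → g₁ (f₁ x) = x

lemma exists_Hf (H : Half e₁ e₂ f₁ f₂) : ∃ g₁, Hf e₁ e₂ f₁ f₂ g₁ := by
  obtain ⟨φ, rfl, h1, h2⟩ := H.chart
  exact ⟨φ.symm, H, h2 ▸ φ.continuousOn_symm, fun y hy => φ.right_inv (h2.ge hy),
    fun x hx => φ.left_inv (h1.ge hx)⟩

section half

variable (H : Hf e₁ e₂ f₁ f₂ g₁)
include H

lemma Hf.maps : MapsTo g₁ {e₁ 0}ᶜ (f₁ ⁻¹' {e₁ 0}ᶜ) := fun y hy h => hy ((H.fg y hy).symm.trans h)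

lemma Hf.ne {v : E2} (hv : v ∈ Pd) : e₁ v ≠ e₁ 0 := fun h => hv.2 (H.emb.injective h)

lemma Hf.map_fg {n : ℕ} {c : C ℤ M₁} (hc : c ∈ In ℤ {e₁ 0}ᶜ n) : map f₁ (map g₁ c) = c := by
  rw [map_map H.gc hc]
  exact map_self (fun y hy => H.fg y hy) hc

lemma Hf.cont_theta : ContinuousOn (g₁ ∘ e₁) Pd :=
  H.gc.comp H.emb.continuous.continuousOn fun _ hv => H.ne hv

lemma Hf.locEuc (h : LocEuc (Fin 2) M₁) {x : X} (hx : f₁ x ≠ e₁ 0) :
    ∃ φ : OpenPartialHomeomorph X (Fin 2 → ℝ), x ∈ φ.source := by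
  obtain ⟨φ, rfl, h1, -⟩ := H.chart
  obtain ⟨ψ, h2⟩ := h (φ x)
  exact ⟨φ.trans ψ, h1.ge hx, h2⟩

lemma Hf.pathConn [PathConnectedSpace M₁] (h : LocEuc (Fin 2) M₁) :
    IsPathConnected (f₁ ⁻¹' {e₁ 0}ᶜ) := by
  obtain ⟨v, hv⟩ := pathConn_Pd.nonempty
  have := (pathConn_compl h (H.ne hv)).image' H.gc
  rwa [subset_antisymm H.maps.image_subset fun x hx => ⟨_, hx, H.gf x hx⟩] at this

lemma Hf.null {z : C ℤ M₁} (hz : z ∈ Z ℤ univ ∅ 2) (hg : Gen 2 z (e₁ 0)) {c : C ℤ X}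
    (hc : c ∈ Z ℤ (f₁ ⁻¹' {e₁ 0}ᶜ) ∅ 1) (h : map f₁ c ∈ B ℤ univ ∅ 1) : c ∈ B ℤ univ ∅ 1 := by
  obtain ⟨w, hw, h1⟩ := mem_B_empty h
  obtain ⟨r, hr⟩ := hg w ⟨hw, show D w ∈ _ from
    h1 ▸ map_In H.cont.continuousOn (mapsTo_preimage _ _) hc.1⟩
  obtain ⟨w', -, h2⟩ := mem_B hr
  have h3 := D_mem_B (U := ∅) (In_univ (map_In H.gc H.maps h2))
  have h4 : D (w - r • z - D w') = map f₁ c := by simp [h1, Z_D_eq hz]
  rwa [← map_D H.gc h2, h4, map_map' H.cont,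
    map_self (g := g₁ ∘ f₁) (fun x hx => H.gf x hx) hc.1] at h3

variable (H' : Hf e₂ e₁ f₂ f₁ g₂)
include H'

lemma Hf.f_theta {v : E2} (hv : v ∈ Pd) : f₂ (g₁ (e₁ v)) = e₂ (fl v) := by
  rw [H'.disc _ (H.maps (H.ne hv)), H.fg _ (H.ne hv), col_apply H.emb]

lemma Hf.theta {v : E2} (hv : v ∈ Pd) : g₂ (e₂ v) = g₁ (e₁ (fl v)) := by
  rw [← H'.gf _ ((H.f_theta H' (fl_mem hv)).trans_ne (H'.ne (fl_mem (fl_mem hv)))),
    H.f_theta H' (fl_mem hv), fl_fl hv]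

lemma Hf.inter : f₁ ⁻¹' {e₁ 0}ᶜ ∩ f₂ ⁻¹' {e₂ 0}ᶜ = g₁ ∘ e₁ '' Pd := by
  refine subset_antisymm (fun x hx => ?_) ?_
  · obtain ⟨u, hu, t, h0, h1, h2, -⟩ := col_ne H.emb hx.1 fun h => hx.2
      ((H'.disc x hx.1).trans (congrArg e₂ h))
    refine ⟨t • u, ⟨?_, fun h => hx.1 (h2.trans (congrArg e₁ h))⟩, ?_⟩
    · simpa [norm_smul, hu, abs_of_pos h0]
    · rw [Function.comp_apply, ← h2, H.gf x hx.1]
  · rintro _ ⟨v, hv, rfl⟩
    exact ⟨H.maps (H.ne hv), (H.f_theta H' hv).trans_ne (H'.ne (fl_mem hv))⟩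

lemma Hf.range {n : ℕ} {c : C ℤ X} (hc : c ∈ In ℤ (f₂ ⁻¹' {e₂ 0}ᶜ) n) :
    map f₁ c ∈ In ℤ (range e₁) n :=
  map_In H.cont.continuousOn (fun x hx => by rw [H.disc x hx]; exact mem_range_self _) hc

lemma Hf.dies {F : M₁ → UnitAddCircle} (hF : Continuous F) : ∃ G : X → ℝ,
    ∀ c ∈ In ℝ (f₂ ⁻¹' {e₂ 0}ᶜ) 2, (xf (F ∘ f₁) - pv G ∘ₗ D) c = 0 := by
  obtain ⟨G, hG, h⟩ := exists_lift (hF.comp H.emb.continuous)
  exact ⟨_, fun c hc => sub_eq_zero.2 (xf_lift (hG.comp_continuousOn ((col_cont H'.emb).comp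
    H'.cont.continuousOn fun _ h => h)) (fun x hx => by
      rw [Function.comp_apply, H.disc x hx]; exact congrFun h _) hc)⟩

lemma Hf.xf_zero {F : M₁ → UnitAddCircle} (hF : Continuous F) {c : C ℤ X}
    (hc : c ∈ Z ℤ (f₂ ⁻¹' {e₂ 0}ᶜ) ∅ 1) : xf (F ∘ f₁) (cR c) = 0 := by
  obtain ⟨G, h⟩ := H.dies H' hF
  simpa [← cf_D, Z_D_eq hc] using h _ (cf_In (Int.castRingHom ℝ) hc.1)

lemma Hf.dual (h : LocEuc (Fin 2) M₁) {c : C ℤ M₁} (hc : c ∈ Z ℤ univ ∅ 1) :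
    ∃ c' ∈ Z ℤ (f₁ ⁻¹' {e₁ 0}ᶜ) ∅ 1, ∀ F : M₁ → UnitAddCircle, Continuous F →
      xf (F ∘ f₁) (cR c') = xf F (cR c) := by
  obtain ⟨w, hw, h1⟩ := mem_B (loc_low h (e₁ 0) (n := 1) (by simp)
    (Z_mono le_rfl (empty_subset _) hc))
  refine ⟨_, map_Z H.gc (empty_subset _) H.maps (mapsTo_empty _ _)
    (mem_Z h1 (by simp [Z_D_eq hc])), fun F hF => ?_⟩
  rw [← xf_map' H.cont, ← cf_map, H.map_fg h1, map_sub, map_sub, cf_D, Coc_xf hF _ (cf_In _ hw),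
    sub_zero]

lemma Hf.exists_cycle {z₁ : C ℤ M₁} {z₂ : C ℤ M₂} (h₁ : z₁ ∈ Z ℤ univ ∅ 2) (h₂ : z₂ ∈ Z ℤ univ ∅ 2)
    (k₁ : Gen 2 z₁ (e₁ 0)) (k₂ : Gen 2 z₂ (e₂ 0)) : ∃ ε : ℤ, (ε = 1 ∨ ε = -1) ∧
      ∃ a ∈ In ℤ (f₁ ⁻¹' {e₁ 0}ᶜ) 3, ∃ b ∈ In ℤ (f₂ ⁻¹' {e₂ 0}ᶜ) 3, D (a + b) = 0 ∧
        z₁ - map f₁ (a + b) ∈ B ℤ univ ∅ 2 ∧ ε • z₂ - map f₂ (a + b) ∈ B ℤ univ ∅ 2 := by
  obtain ⟨a, ha, β, hβ, b1, b2, b3⟩ := exists_cut H.emb h₁ k₁
  obtain ⟨a', ha', β', hβ', c1, c2, c3⟩ := exists_cut H'.emb h₂ k₂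
  obtain ⟨ε, hε, h3⟩ := gen_unique locEuc_E2 (Z_mono (subset_univ _) inter_subset_right hβ)
    (Z_mono (subset_univ _) inter_subset_right hβ') b1 c1
  obtain ⟨w, -, h4⟩ := mem_B (exc_inj isOpen_ball isOpen_compl_singleton
    (eq_univ_of_forall fun x => (em (x = 0)).elim (fun h => .inl (by simp [h])) .inr)
    (sub_mem hβ (Submodule.smul_mem _ ε hβ')) h3)
  obtain ⟨w', hw', h5⟩ := mem_B_empty (fl_B (mem_Z (Z_D hβ') (D_D _)))
  have h6 := sub_mem h4 (Submodule.smul_mem _ ε hw')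
  set v := β - ε • β' - D w - ε • w'
  have h7 := map_In H.cont_theta (mapsTo_image _ _) h6
  rw [← H.inter H'] at h7
  have h8 := map_In H.gc H.maps ha
  have h9 := map_In H'.gc H'.maps ha'
  have h10 : D (map g₁ a + map (g₁ ∘ e₁) v + -ε • map g₂ a') = 0 := by
    rw [map_add, map_add, map_smul, ← map_D H.gc ha, ← map_D H'.gc ha', ← map_D H.cont_theta h6,
      b2, c2, map_neg, map_neg, map_map' H.emb.continuous, map_map' H'.emb.continuous,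
      map_congr (g := g₂ ∘ e₂) (g' := (g₁ ∘ e₁) ∘ fl) (fun v hv => H.theta H' hv) (Z_D hβ'),
      ← map_map ((col_cont IsOpenEmbedding.id).mono inter_subset_right |>.congr fun v _ =>
        (col_apply IsOpenEmbedding.id v).symm) (Z_D hβ')]
    simp only [v, map_sub, map_smul, D_D, h5, map_zero]
    module
  refine ⟨-ε, by omega, _, add_mem h8 (In_mono inter_subset_left _ h7), _,
    Submodule.smul_mem _ (-ε) h9, h10, ?_, ?_⟩
  · have := range_B H.emb (n := 2)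
      (c := a + map e₁ β - map f₁ (map g₁ a + map (g₁ ∘ e₁) v + -ε • map g₂ a')) (by
        rw [add_assoc (map g₁ a), map_add, H.map_fg ha, add_sub_add_left_eq_sub]
        exact sub_mem (map_In H.emb.continuous.continuousOn (mapsTo_range _ _) hβ.1)
          (H.range H' (add_mem (In_mono inter_subset_right _ h7) (Submodule.smul_mem _ _ h9))))
      (by rw [map_sub, ← map_D' H.cont, h10, map_add, b2, map_D' H.emb.continuous]; simp)
    simpa using add_mem b3 this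
  · have := range_B H'.emb (n := 2) (c := -ε • (a' + map e₂ β') -
      map f₂ (map g₁ a + map (g₁ ∘ e₁) v + -ε • map g₂ a'))
      (by
        rw [map_add, map_smul, H'.map_fg ha', smul_add, add_comm (-ε • a'),
          add_sub_add_right_eq_sub]
        exact sub_mem (Submodule.smul_mem _ _
          (map_In H'.emb.continuous.continuousOn (mapsTo_range _ _) hβ'.1))
          (H'.range H (add_mem h8 (In_mono inter_subset_left _ h7))))
      (by rw [map_sub, ← map_D' H'.cont, h10, map_smul, map_add, c2, map_D' H'.emb.continuous]; simp)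
    convert add_mem (Submodule.smul_mem _ (-ε) c3) this using 1
    module

lemma Hf.mixed {F : M₁ → UnitAddCircle} (hF : Continuous F) {F' : M₂ → UnitAddCircle}
    (hF' : Continuous F') {a b : C ℤ X} (ha : a ∈ In ℤ (f₁ ⁻¹' {e₁ 0}ᶜ) 3)
    (hb : b ∈ In ℤ (f₂ ⁻¹' {e₂ 0}ᶜ) 3) (h : D (a + b) = 0) :
    ev [xf (F ∘ f₁), xf (F' ∘ f₂)] (cR (a + b)) = 0 := by
  obtain ⟨G, h1⟩ := H.dies H' hF
  obtain ⟨G', h2⟩ := H'.dies H hF'
  have := ev_eq (u := fun i => cond i (xf (F ∘ f₁)) (xf (F' ∘ f₂)))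
    (u' := fun i => cond i (xf (F ∘ f₁) - pv G ∘ₗ D) (xf (F' ∘ f₂) - pv G' ∘ₗ D))
    (by
      rintro (_ | _)
      exacts [(Coc_xf (hF'.comp H'.cont)).sub fun _ _ => by simp,
        (Coc_xf (hF.comp H.cont)).sub fun _ _ => by simp])
    (by rintro (_ | _) <;> exact ⟨pv _, fun _ _ => by simp; rfl⟩) [true, false]
    (cf_Z (Int.castRingHom ℝ) (mem_Z (add_mem (In_univ ha) (In_univ hb)) h))
  rw [show ev [xf (F ∘ f₁), xf (F' ∘ f₂)] _ = _ from this, map_add, map_add,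
    ev_zero (by simp) h2 (cf_In _ ha), ev_zero (by simp) h1 (cf_In _ hb), add_zero]

end half

lemma pair_map {κ : Type*} [DecidableEq κ] {F : κ → M → UnitAddCircle} {J : κ → κ → ℝ} {z : C ℤ M}
    (h : Surf F J z) {f : X → M} (hf : Continuous f) {c : C ℤ X} {ε : ℤ}
    (hc : ε • z - map f c ∈ B ℤ univ ∅ 2) (i j : κ) :
    ev [xf (F i ∘ f), xf (F j ∘ f)] (cR c) = ε * J i j := by
  have := (Coc_ev' (fun i => Coc_xf (h.cont i)) [i, j]).apply_B (cf_B (Int.castRingHom ℝ) hc)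
  rw [map_sub, map_sub, ev_xf_map hf, cf_smul, map_smul, sub_eq_zero] at this
  exact this.symm.trans (congrArg _ (h.pair i j))

/-- There is a closed surface with intersection matrix `J`. -/
def Good {κ : Type} [DecidableEq κ] (J : κ → κ → ℤ) : Prop :=
  ∃ (S : Type) (_ : TopologicalSpace S) (_ : Nonempty S) (_ : T2Space S) (_ : CompactSpace S)
    (_ : PathConnectedSpace S), LocEuc (Fin 2) S ∧
      ∃ (f : κ → S → UnitAddCircle) (z : C ℤ S), Surf f (fun i j => J i j) z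

variable {κ κ' : Type} [DecidableEq κ] [DecidableEq κ'] {J : κ → κ → ℤ} {J' : κ' → κ' → ℤ}

lemma Good.reindex (h : Good J) (e : κ' ≃ κ) (h' : ∀ i j, J' i j = J (e i) (e j)) : Good J' := by
  obtain ⟨S, _, _, _, _, _, hS, f, z, h⟩ := h
  refine ⟨S, _, _, ‹_›, ‹_›, ‹_›, hS, fun i => f (e i), z, fun i => h.cont _, h.cyc,
    fun i j => h' i j ▸ h.pair _ _, fun c hc h0 => h.det c hc fun i => ?_, fun j => ?_⟩
  · simpa using h0 (e.symm i)
  · simpa using (h.dual (e j)).imp fun c hc => And.intro hc.1 fun i => hc.2 (e i)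

lemma exists_emb (h : LocEuc (Fin 2) M) : ∃ e : E2 → M, IsOpenEmbedding e := by
  obtain ⟨φ, -, h1⟩ := exists_chart_univ h (Classical.arbitrary M)
  exact ⟨_, (φ.symm.isOpenEmbedding h1).comp
    (EuclideanSpace.equiv (Fin 2) ℝ).toHomeomorph.isOpenEmbedding⟩

lemma Surf.gen [CompactSpace M] [PreconnectedSpace M] (hM : LocEuc (Fin 2) M)
    {f : κ → M → UnitAddCircle} {z : C ℤ M} (h : Surf f (fun i j => J i j) z) {i j : κ}
    (h1 : J i j = 1) (x : M) : Gen 2 z x :=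
  gen_of_word hM h.cont (I := [i, j]) (by simp) h.cyc ((h.pair i j).trans (by simp [h1])) x

theorem Good.sum (h : Good J) (h' : Good J') {i j : κ} (h1 : J i j = 1) {i' j' : κ'}
    (h1' : J' i' j' = 1) :
    ∃ ε : ℤ, (ε = 1 ∨ ε = -1) ∧ Good (Matrix.fromBlocks (.of J) 0 0 (ε • .of J')) := by
  obtain ⟨M₁, _, _, _, _, _, l₁, F₁, z₁, s₁⟩ := h
  obtain ⟨M₂, _, _, _, _, _, l₂, F₂, z₂, s₂⟩ := h'
  obtain ⟨e₁, he₁⟩ := exists_emb l₁
  obtain ⟨e₂, he₂⟩ := exists_emb l₂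
  obtain ⟨v, hv⟩ := pathConn_Pd.nonempty
  have : Nonempty (ConnSum e₁ e₂) := ⟨Quot.mk _ (.inl ⟨e₁ v, fun h => hv.2 (he₁.injective h)⟩)⟩
  obtain ⟨f₁, f₂, K, K'⟩ := connSum_half he₁ he₂
  obtain ⟨g₁, H⟩ := exists_Hf K
  obtain ⟨g₂, H'⟩ := exists_Hf K'
  obtain ⟨ε, hε, a, ha, b, hb, h0, h2, h3⟩ := H.exists_cycle H' s₁.cyc s₂.cyc (s₁.gen l₁ h1 _)
    (s₂.gen l₂ h1' _)
  have hU : f₁ ⁻¹' {e₁ 0}ᶜ ∪ f₂ ⁻¹' {e₂ 0}ᶜ = univ := eq_univ_of_forall K.cov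
  have hI : IsPathConnected (f₁ ⁻¹' {e₁ 0}ᶜ ∩ f₂ ⁻¹' {e₂ 0}ᶜ) :=
    H.inter H' ▸ pathConn_Pd.image' H.cont_theta
  refine ⟨ε, hε, ConnSum e₁ e₂, _, this, K.t2 K', K.compact K', pathConnectedSpace_iff_univ.2
    (hU ▸ (H.pathConn l₁).union (H'.pathConn l₂) hI.nonempty),
    fun x => (K.cov x).elim (H.locEuc l₁) (H'.locEuc l₂),
    Sum.elim (fun i => F₁ i ∘ f₁) fun i => F₂ i ∘ f₂, a + b, ?_,
    mem_Z (add_mem (In_univ ha) (In_univ hb)) h0, ?_, fun c hc h4 => ?_, ?_⟩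
  · rintro (i | i)
    exacts [(s₁.cont i).comp K.cont, (s₂.cont i).comp K'.cont]
  · rintro (i | i) (j | j)
    · simpa [-map_add] using pair_map s₁ K.cont (ε := 1) (by rwa [one_smul]) i j
    · simpa [-map_add] using H.mixed H' (s₁.cont i) (s₂.cont j) ha hb h0
    · simpa [-map_add] using add_comm a b ▸ H'.mixed H (s₂.cont i) (s₁.cont j) hb ha
        (add_comm a b ▸ h0)
    · simpa [-map_add] using pair_map s₂ K'.cont h3 i j
  · obtain ⟨m, x, hx, hy⟩ := small_ex (isOpen_compl_singleton.preimage K.cont)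
      (isOpen_compl_singleton.preimage K'.cont) (hU ▸ hc.1)
    obtain ⟨w, hw, h5⟩ := zero_Bd' hI (In_inter (D_In hx)
      (by simpa [D_sd, Z_D_eq hc] using D_In hy)) (D_D x)
    have h6 := mem_Z (U := ∅) (sub_mem hx (In_mono inter_subset_left _ hw)) (by simp [h5])
    have h7 := mem_Z (U := ∅) (add_mem hy (In_mono inter_subset_right _ hw))
      (by simp [h5, D_sd, Z_D_eq hc])
    have h8 := sub_sd hc m
    have h9 : ∀ F, Continuous F → xf F (cR c) = xf F (cR (x - w)) +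
        xf F (cR ((sd ^ m) c - x + w)) := fun F hF => by
      rw [← map_add, ← map_add, ← sub_eq_zero, ← map_sub, ← map_sub]
      exact (Coc_xf hF).apply_B (cf_B _ (by simpa using h8))
    convert add_mem h8 (add_mem (H.null s₁.cyc (s₁.gen l₁ h1 _) h6 (s₁.det _ (map_Z' K.cont h6)
      fun i => ?_)) (H'.null s₂.cyc (s₂.gen l₂ h1' _) h7 (s₂.det _ (map_Z' K'.cont h7)
        fun i => ?_))) using 1
    · abel
    · have := h9 _ ((s₁.cont i).comp K.cont)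
      rw [H.xf_zero H' (s₁.cont i) h7, show xf (F₁ i ∘ f₁) (cR c) = 0 from h4 (.inl i),
        add_zero] at this
      rw [cf_map, xf_map' K.cont, ← this]
    · have := h9 _ ((s₂.cont i).comp K'.cont)
      rw [H'.xf_zero H (s₂.cont i) h6, show xf (F₂ i ∘ f₂) (cR c) = 0 from h4 (.inr i),
        zero_add] at this
      rw [cf_map, xf_map' K'.cont, ← this]
  · rintro (j | j)
    · obtain ⟨c, hc, h4⟩ := s₁.dual j
      obtain ⟨c', hc', h5⟩ := H.dual H' l₁ hc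
      refine ⟨c', Z_mono (subset_univ _) le_rfl hc', ?_⟩
      rintro (i | i)
      · simpa [h4] using h5 _ (s₁.cont i)
      · simpa using H'.xf_zero H (s₂.cont i) hc'
    · obtain ⟨c, hc, h4⟩ := s₂.dual j
      obtain ⟨c', hc', h5⟩ := H'.dual H l₂ hc
      refine ⟨c', Z_mono (subset_univ _) le_rfl hc', ?_⟩
      rintro (i | i)
      · simpa using H.xf_zero H' (s₁.cont i) hc'
      · simpa [h4] using h5 _ (s₂.cont i)

lemma locEuc_tor (n : ℕ) : LocEuc (Fin n) (Tor n) := fun t => by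
  choose r hr using fun i => QuotientAddGroup.mk_surjective (t i)
  choose φ h1 h2 using fun i => (AddCircle.isCoveringMap_coe (1 : ℝ)).isLocalHomeomorph (r i)
  exact ⟨.pi fun i => (φ i).symm, fun i _ => by
    rw [← hr, h2 i]
    exact (φ i).map_source (h1 i)⟩

lemma good_tor : Good fun i j : Fin 2 => Jn i j := by
  refine ⟨Tor 2, _, inferInstance, inferInstance, inferInstance, inferInstance, locEuc_tor 2,
    fun i t => t i, tau 2, fun i => continuous_apply i, tau_Z 2, fun i j => ?_,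
    fun c hc h => det_tor 2 1 c hc fun I hI hl => ?_,
    fun j => ⟨_, pc_Z (wind 0 (Pi.single j 1)), fun i => ?_⟩⟩
  · simpa [xN_fin, dt_two] using ev_tau 2 [i, j] rfl
  · obtain ⟨i, rfl⟩ := List.length_eq_one_iff.1 hl
    rw [List.map_singleton, ev_one _ (cf_In _ hc.1),
      xN_fin (⟨i, by simpa using hI⟩ : Fin 2)]
    exact h _
  · rw [cf_pc, xf_wind]
    simp [Pi.single_apply]

lemma Good.add_tor {n : ℕ} (h : Good fun i j : Fin (n + 2) => Jn i j) (hn : n % 2 = 0) :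
    Good fun i j : Fin (n + 2 + 2) => Jn i j := by
  obtain ⟨ε, hε, h⟩ := h.sum good_tor (i := 0) (j := 1) rfl (i' := 0) (j' := 1) rfl
  have h1 : Good (Matrix.fromBlocks (.of fun i j : Fin (n + 2) => Jn i j) 0 0
      (.of fun i j : Fin 2 => Jn i j)) := by
    rcases hε with rfl | rfl
    · simpa using h
    · refine h.reindex (.sumCongr (.refl _) (.swap 0 1)) ?_
      rintro (i | i) (j | j) <;> simp [-Equiv.Perm.sumCongr_refl_swap]
      revert i j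
      decide
  refine h1.reindex finSumFinEquiv.symm fun i j => ?_
  obtain ⟨i | i, rfl⟩ := finSumFinEquiv.surjective i <;>
    obtain ⟨j | j, rfl⟩ := finSumFinEquiv.surjective j <;> simp [Jn] <;> grind

theorem good_six : Good fun i j : Fin 6 => Jn i j :=
  (good_tor.add_tor (n := 0) rfl).add_tor (n := 2) rfl

end Pool.Agent.Lib.MP_18d288_gt
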