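import Pool.Agent.Lib.MP_18d288_gt.SymB

/-! Loops that bound are null-homotopic in a space with commutative fundamental group. -/

namespace Pool.Agent.Lib.MP_18d288_gt

open Set Finsupp Pool.Agent.Shared.Sing Pool.Agent.Shared.SingEZ unitInterval

section hur

variable {X Y : Type*} [TopologicalSpace X] [TopologicalSpace Y] [PathConnectedSpace X]
  (f : C(X, Y)) (x₀ : X)

/-- the loop class attached to a path through chosen base paths -/
noncomputable def hurP {a c : X} (p : Path a c) : FundamentalGroup Y (f x₀) :=
  ((Path.Homotopic.Quotient.mk (PathConnectedSpace.somePath x₀ a)).map f).trans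
    (((Path.Homotopic.Quotient.mk p).map f).trans
      ((Path.Homotopic.Quotient.mk (PathConnectedSpace.somePath x₀ c)).map f).symm)

theorem hurP_congr {a c a' c' : X} (p : Path a c) (q : Path a' c') (h : ∀ t, p t = q t) :
    hurP f x₀ p = hurP f x₀ q := by
  obtain rfl : a = a' := by rw [← p.source, h, q.source]
  obtain rfl : c = c' := by rw [← p.target, h, q.target]
  obtain rfl : p = q := Path.ext (funext h)
  rfl

theorem hurP_homotopic {a c : X} {p q : Path a c} (h : p.Homotopic q) :
    hurP f x₀ p = hurP f x₀ q := by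
  unfold hurP
  rw [Path.Homotopic.Quotient.eq.2 h]

theorem hurP_trans {a c e : X} (p : Path a c) (q : Path c e) :
    hurP f x₀ (p.trans q) = hurP f x₀ q * hurP f x₀ p := by
  have : (Path.Homotopic.Quotient.mk (p.trans q)).map f =
      ((Path.Homotopic.Quotient.mk p).map f).trans ((Path.Homotopic.Quotient.mk q).map f) := by
    rw [← Path.Homotopic.Quotient.mk_map, Path.map_trans]
    rfl
  rw [FundamentalGroup.mul_def]
  unfold hurP
  rw [this]
  simp only [Path.Homotopic.Quotient.trans_assoc]
  rw [← Path.Homotopic.Quotient.trans_assoc (Path.Homotopic.Quotient.symm _),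
    Path.Homotopic.Quotient.symm_trans, Path.Homotopic.Quotient.refl_trans]

/-- the parametrised edge of the simplex with two vertices -/
def edgeV (t : I) : V := fun i => if i = 0 then 1 - t else if i = 1 then t else 0

theorem edgeV_mem (t : I) : edgeV t ∈ Δ 2 := by
  refine ⟨fun i => ?_, fun i hi => ?_, ?_⟩
  · unfold edgeV
    split_ifs
    · exact one_minus_nonneg t
    · exact nonneg t
    · exact le_rfl
  · exact (if_neg (by omega)).trans (if_neg (by omega))
  · simp [Finset.sum_range_succ, edgeV]

open Classical in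
/-- the loop class attached to a simplex -/
noncomputable def hurS [Nonempty X] (s : Sx X) : FundamentalGroup Y (f x₀) :=
  if h : Continuous fun t : I => s.f (edgeV t) then hurP f x₀ ⟨⟨_, h⟩, rfl, rfl⟩ else 1

theorem hurS_mk [Nonempty X] {W : Type*} [AddCommGroup W] [Module ℝ W] [TopologicalSpace W]
    [ContinuousAdd W] [ContinuousSMul ℝ W] {F : W → X} (hF : Continuous F) (u v : W) :
    hurS f x₀ (mk 2 (F ∘ aff [u, v])) = hurP f x₀ ((Path.segment u v).map hF) := by
  have e : ∀ t : I, (mk 2 (F ∘ aff [u, v])).f (edgeV t) = (Path.segment u v).map hF t := by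
    intro t
    rw [mk_f (hF.comp (continuous_aff _)).continuousOn (edgeV_mem t)]
    change F (aff [u, v] (edgeV t)) = F (Path.segment u v t)
    congr 1
    simp [aff_apply, Finset.sum_range_succ, edgeV, AffineMap.lineMap_apply_module]
  have h : Continuous fun t : I => (mk 2 (F ∘ aff [u, v])).f (edgeV t) := by
    simp only [e]
    exact Path.continuous _
  unfold hurS
  rw [dif_pos h]
  exact hurP_congr f x₀ _ _ e

end hur

/-- (4) a loop that bounds maps to a null-homotopic loop if the target group is commutative -/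
theorem hurewicz {X Y : Type*} [TopologicalSpace X] [TopologicalSpace Y] [Nonempty X]
    [PathConnectedSpace X] {f : X → Y} (hf : Continuous f) {x₀ : X}
    (hc : ∀ p q : FundamentalGroup Y (f x₀), p * q = q * p) (d : Path x₀ x₀)
    (hd : real d.extend (single [(0 : ℝ), 1] (1 : ℤ)) ∈ Bd ℤ (univ : Set X) 2) :
    (d.map hf).Homotopic (Path.refl _) := by
  let g : C(X, Y) := ⟨f, hf⟩
  letI : CommGroup (FundamentalGroup Y (g x₀)) :=
    { (inferInstance : Group (FundamentalGroup Y (g x₀))) with mul_comm := hc }
  let Φ : C ℤ X →ₗ[ℤ] Additive (FundamentalGroup Y (g x₀)) :=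
    lc fun s => Additive.ofMul (hurS g x₀ s)
  have hΦ : ∀ {W : Type} [AddCommGroup W] [Module ℝ W] [TopologicalSpace W]
      [ContinuousAdd W] [ContinuousSMul ℝ W] {F : W → X} (hF : Continuous F) (u v : W),
      Φ (real F (single [u, v] 1)) = Additive.ofMul (hurP g x₀ ((Path.segment u v).map hF)) := by
    intro W _ _ _ _ _ F hF u v
    rw [real_single, ← hurS_mk]
    simp [Φ]
  obtain ⟨w, hw, e⟩ := hd
  have h0 : (Φ ∘ₗ D) w = (0 : C ℤ X →ₗ[ℤ] _) w := by
    refine eq_In (fun F hF _ l hl => ?_) hw
    obtain ⟨a, b, c, rfl⟩ := List.length_eq_three.1 hl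
    have e1 : bd (single [a, b, c] (1 : ℤ)) =
        single [b, c] 1 - single [a, c] 1 + single [a, b] 1 := by
      simp [bdL]
      abel
    have e2 : hurP g x₀ ((Path.segment a c).map hF) =
        hurP g x₀ ((Path.segment b c).map hF) * hurP g x₀ ((Path.segment a b).map hF) := by
      rw [← hurP_trans, ← Path.map_trans]
      exact hurP_homotopic g x₀ ((SimplyConnectedSpace.paths_homotopic _ _).map ⟨F, hF⟩)
    rw [LinearMap.comp_apply, D_glob hF, e1, map_add, map_sub, map_add, map_sub, hΦ hF, hΦ hF,
      hΦ hF, e2, ofMul_mul, LinearMap.zero_apply]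
    abel
  rw [LinearMap.comp_apply, e, hΦ d.continuous_extend, LinearMap.zero_apply,
    hurP_congr g x₀ _ d (fun t => by simp [AffineMap.lineMap_apply_module])] at h0
  let k : FundamentalGroup Y (g x₀) :=
    (Path.Homotopic.Quotient.mk (PathConnectedSpace.somePath x₀ x₀)).map g
  let m : FundamentalGroup Y (g x₀) := Path.Homotopic.Quotient.mk (d.map hf)
  have h1 : k⁻¹ * m * k = 1 := h0
  rw [mul_comm, mul_inv_cancel_left] at h1
  exact Path.Homotopic.Quotient.eq.1 h1

/-- a loop of the surface that bounds dies in the symmetric square -/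
theorem jj_null {S : Type} [TopologicalSpace S] [T2Space S] [Nonempty S] [PathConnectedSpace S]
    (hS : LocEuc (Fin 2) S) (o : S) (d : Path o o)
    (hd : real d.extend (single [(0 : ℝ), 1] (1 : ℤ)) ∈ Bd ℤ (univ : Set S) 2) :
    (d.map (continuous_jj o)).Homotopic (Path.refl _) :=
  hurewicz (continuous_jj o) (fg_comm hS o) d hd

end Pool.Agent.Lib.MP_18d288_gt
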