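import Pool.Agent.Lib.MP_18d288_gt.Quad
import Pool.Agent.Lib.MP_18d288_gt.Surface
import Pool.Agent.Lib.MP_18d288_gt.Sym
import Pool.Agent.Shared.Sing.Kun

/-! The symmetric square of the surface of genus three. -/

set_option linter.unusedSectionVars false
set_option maxSynthPendingDepth 3

namespace Pool.Agent.Lib.MP_18d288_gt

open Set Pool.Agent.Shared.Sing Pool.Agent.Shared.SingEZ

section cross

variable {X Y : Type*} [TopologicalSpace X] [Nonempty X] [TopologicalSpace Y] [Nonempty Y]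
  {p q : ℕ} {c : C ℝ X} {d : C ℝ Y}

lemma ev_add_cross {ι : Type*} {u : ι → X → UnitAddCircle} {v : ι → Y → UnitAddCircle}
    (hu : ∀ i, Continuous (u i)) (hv : ∀ i, Continuous (v i)) (hc : c ∈ Z ℝ univ ∅ p)
    (hd : d ∈ Z ℝ univ ∅ q) (I : List ι) (hI : I.length = p + q) :
    ev (I.map fun i => xf fun y : X × Y => u i y.1 + v i y.2) (cross c d) = shf p I fun J K =>
      ev (J.map fun i => xf (u i)) c * ev (K.map fun i => xf (v i)) d := by
  rw [ev_eq (u' := fun i => xf (u i) ∘ₗ map Prod.fst + xf (v i) ∘ₗ map Prod.snd)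
    (fun i => Coc_add (Coc_map continuous_fst (Coc_xf (hu i)))
      (Coc_map continuous_snd (Coc_xf (hv i)))) (fun i => dies_of_zero fun c hc => ?_) I
      (by simpa [hI] using cross_Z hc hd),
    ev_cross (fun i => Coc_xf (hu i)) (fun i => Coc_xf (hv i)) hc.1 hd.1]
  rw [LinearMap.sub_apply, LinearMap.add_apply, xf_map continuous_fst, xf_map continuous_snd,
    ← xf_add ((hu i).comp continuous_fst) ((hv i).comp continuous_snd) hc, sub_eq_zero]
  rfl

/-- The cycles in `T` span the real homology in degree `p`. -/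
def Sp (p : ℕ) (T : Set (C ℝ X)) : Prop :=
  (∀ x ∈ T, x ∈ Z ℝ univ ∅ p) ∧ Z ℝ univ ∅ p ≤ Submodule.span ℝ T ⊔ B ℝ univ ∅ p

lemma Sp.kills {T : Set (C ℝ X)} {T' : Set (C ℝ Y)} (h : Sp p T) (h' : Sp q T')
    {ψ : C ℝ (X × Y) →ₗ[ℝ] ℝ} (hψ : Coc univ (p + q) ψ)
    (h0 : ∀ x ∈ T, ∀ y ∈ T', ψ (cross x y) = 0) :
    ∀ c ∈ Z ℝ univ ∅ p, ∀ d ∈ Z ℝ univ ∅ q, ψ (cross c d) = 0 := fun c hc d hd => by
  refine (sup_le (Submodule.span_le.2 fun y hy => ?_) fun y hy => ?_ :
    _ ≤ LinearMap.ker (ψ ∘ₗ cross c)) (h'.2 hd)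
  · exact (sup_le (Submodule.span_le.2 fun x hx => h0 x hx y hy) fun x hx =>
      hψ.apply_B (by simpa using cross_B_left hx (h'.1 y hy)) :
        _ ≤ LinearMap.ker (ψ ∘ₗ cross.flip y)) (h.2 hc)
  · exact hψ.apply_B (by simpa using cross_B_right hc hy)

lemma mem_sup_of_sub {T : Submodule ℝ (C ℝ X)} {e : C ℝ X} (he : e ∈ T)
    (h : c - e ∈ B ℝ univ ∅ p) : c ∈ T ⊔ B ℝ univ ∅ p := by
  simpa using Submodule.add_mem_sup he h

lemma sp_zero [PathConnectedSpace X] (o : X) : Sp 0 {pt ℝ o} :=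
  ⟨fun _ h => h ▸ mem_Z_zero (pt_In trivial), fun _ hc => mem_sup_of_sub
    (Submodule.smul_mem _ _ (Submodule.mem_span_singleton_self _))
    (Submodule.mem_sup_left (zero_Bd isPathConnected_univ trivial hc.1))⟩

end cross

/-- Letters: a class from each factor, or none. -/
abbrev Lt : Type := Option (Fin 6) × Option (Fin 6)

/-- Values of words on a point. -/
def e0 (J : List (Option (Fin 6))) : ℤ := if J = [] then 1 else 0

/-- Values of words on a loop. -/
def eL (j : Fin 6) (J : List (Option (Fin 6))) : ℤ := if J = [some j] then 1 else 0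

/-- Values of words on the surface. -/
def e2 : List (Option (Fin 6)) → ℤ
  | [some i, some j] => Jn i j
  | _ => 0

/-- Values of words on a product. -/
def sE (p : ℕ) (E E' : List (Option (Fin 6)) → ℤ) (I : List Lt) : ℤ :=
  shf p I fun J K => E (J.map Prod.fst) * E' (K.map Prod.snd)

/-- First words of the sixteen invariant classes. -/
def W1 : Option Pr → List Lt
  | none => [(some 0, none), (some 1, none)]
  | some p => [(p.1.1, p.1.1), (p.1.2, p.1.2)]

/-- Second words of the sixteen invariant classes. -/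
def W2 : Option Pr → List Lt
  | none => [(none, some 0), (none, some 1)]
  | some _ => [(none, none), (none, none)]

/-- The intersection matrix. -/
def G16 : Option Pr → Option Pr → ℤ
  | none, none => 1
  | none, some p => Jn p.1.1 p.1.2
  | some p, none => Jn p.1.1 p.1.2
  | some p, some q => Pf p.1.1 p.1.2 q.1.1 q.1.2

/-- Nine orthogonal negative classes. -/
def A9 (a : Option Pr) (k : Fin 9) : ℤ := a.elim (if 6 ≤ k then 1 else 0) (mix k)

lemma d20 : ∀ a, sE 2 e2 e0 (W1 a) + sE 2 e2 e0 (W2 a) = G16 none a := by decide +kernel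

lemma d02 : ∀ a, sE 0 e0 e2 (W1 a) + sE 0 e0 e2 (W2 a) = G16 none a := by decide +kernel

lemma d11 : ∀ k l a, sE 1 (eL k) (eL l) (W1 a) + sE 1 (eL k) (eL l) (W2 a) = a.elim 0 fun p =>
    (if p.1 = (k, l) then 1 else 0) - if p.1 = (l, k) then 1 else 0 := by decide +kernel

lemma d22 : ∀ a b, sE 2 e2 e2 (W1 a ++ W1 b) + sE 2 e2 e2 (W2 a ++ W1 b) +
    (sE 2 e2 e2 (W1 a ++ W2 b) + sE 2 e2 e2 (W2 a ++ W2 b)) = 2 * G16 a b := by decide +kernel

lemma dpf : ∀ i j k l : Fin 6, sE 2 e2 e2 [(i, i), (j, j), (k, k), (l, l)] = 2 * Pf i j k l := by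
  decide +kernel

lemma gram9 : ∀ k l : Fin 9, ∑ a, ∑ b, A9 a k * A9 b l * G16 a b =
    if k = l then -(((if 6 ≤ k then 0 else 1 : ℕ) : ℤ) + 1) else 0 := by decide +kernel

lemma len1 (a : Option Pr) : (W1 a).length = 2 := by cases a <;> rfl

lemma len2 (a : Option Pr) : (W2 a).length = 2 := by cases a <;> rfl

lemma sum_anti {m : Fin 6 → Fin 6 → ℝ} (h : ∀ k l, m k l = -m l k) (k l : Fin 6) :
    ∑ p : Pr, m p.1.1 p.1.2 * ((if p.1 = (k, l) then 1 else 0) - if p.1 = (l, k) then 1 else 0) =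
      m k l := by
  have e : ∀ k l, ∑ p : Pr, (if p.1 = (k, l) then m p.1.1 p.1.2 else 0) =
      if k < l then m k l else 0 := fun k l => by
    split_ifs with h1
    · simp [show ∀ p : Pr, p.1 = (k, l) ↔ p = ⟨(k, l), h1⟩ from fun p =>
        (Subtype.ext_iff (a2 := ⟨(k, l), h1⟩)).symm]
    · exact Finset.sum_eq_zero fun p _ => if_neg fun h2 => h1 (by simpa [h2] using p.2)
  simp only [mul_sub, mul_ite, mul_one, mul_zero, Finset.sum_sub_distrib, e]
  rcases lt_trichotomy k l with h1 | rfl | h1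
  · simp [h1, h1.not_gt]
  · linarith [h k k]
  · simp [h1, h1.not_gt, h k l]

variable {S : Type} [TopologicalSpace S] [Nonempty S] [T2Space S] [CompactSpace S]
  [PathConnectedSpace S] (f : Fin 6 → S → UnitAddCircle)

/-- The product of the classes named by a word. -/
noncomputable def wd (I : List Lt) : C ℝ (S × S) →ₗ[ℝ] ℝ :=
  ev (I.map fun α => xf fun y => α.1.elim 0 f y.1 + α.2.elim 0 f y.2)

/-- The sixteen invariant classes. -/
noncomputable def ww (a : Option Pr) : C ℝ (S × S) →ₗ[ℝ] ℝ := wd f (W1 a) + wd f (W2 a)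

variable {f} {z : C ℤ S} (h : Surf f (fun i j => Jn i j) z) {o : S} {γ : Fin 6 → Path o o}
  (hγ : ∀ i j, xf (f i) (pc ℝ (γ j)) = if i = j then 1 else 0) (hS : LocEuc (Fin 2) S)
include h

lemma Surf.cont' (α : Option (Fin 6)) : Continuous (α.elim 0 f) := by
  cases α
  exacts [continuous_zero, h.cont _]

lemma Surf.coc_wd (I : List Lt) : Coc univ I.length (wd f I) :=
  Coc_ev' (fun _ => Coc_xf (((h.cont' _).comp continuous_fst).add
    ((h.cont' _).comp continuous_snd))) I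

lemma Surf.coc_ww (a : Option Pr) : Coc univ 2 (ww f a) :=
  Coc_add (len1 a ▸ h.coc_wd _) (len2 a ▸ h.coc_wd _)

lemma Surf.wd_cross {p q : ℕ} {c d : C ℝ S} (hc : c ∈ Z ℝ univ ∅ p) (hd : d ∈ Z ℝ univ ∅ q)
    {E E' : List (Option (Fin 6)) → ℤ} (h1 : ∀ J, ev (J.map fun α => xf (α.elim 0 f)) c = E J)
    (h2 : ∀ J, ev (J.map fun α => xf (α.elim 0 f)) d = E' J) (I : List Lt) (hI : I.length = p + q) :
    wd f I (cross c d) = sE p E E' I := by
  rw [wd, ev_add_cross (fun α : Lt => h.cont' α.1) (fun α => h.cont' α.2) hc hd I hI, sE,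
    ← eq_intCast (Int.castRingHom ℝ), map_shf]
  simp [← h1, ← h2, Function.comp_def]

omit h in
lemma ev_pt (J : List (Option (Fin 6))) :
    ev (J.map fun α => xf (α.elim 0 f)) (pt ℝ o) = e0 J := by
  obtain _ | ⟨a, J⟩ := J
  · simp [ev, e1_pt, e0]
  · rw [ev_In (pt_In (mem_univ o)) (by simp)]
    simp [e0]

lemma Surf.ev_z (J : List (Option (Fin 6))) :
    ev (J.map fun α => xf (α.elim 0 f)) (cR z) = e2 J := by
  have h1 := cf_In (Int.castRingHom ℝ) h.cyc.1
  by_cases hJ : J.length = 2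
  · obtain ⟨_ | i, j, rfl⟩ := List.length_eq_two.1 hJ
    · exact (ev_zero (by simp [Pi.zero_def]) (fun _ => xf_const 0) h1).trans (by simp [e2])
    obtain _ | j := j
    · exact (ev_zero (by simp [Pi.zero_def]) (fun _ => xf_const 0) h1).trans (by simp [e2])
    · exact h.pair i j
  · rw [ev_In h1 (by simpa using Ne.symm hJ), e2.eq_2, Int.cast_zero]
    rintro i j rfl
    exact hJ rfl

lemma Surf.cup_ww (a b : Option Pr) :
    cup 2 (ww f a) (ww f b) (cross (cR z) (cR z)) = 2 * G16 a b := by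
  have e : ∀ I I' : List Lt, I.length = 2 → I'.length = 2 →
      cupB 2 (wd f I) (wd f I') (cross (cR z) (cR z)) = sE 2 e2 e2 (I ++ I') := fun I I' h1 h2 => by
    rw [← h.wd_cross (cf_Z _ h.cyc) (cf_Z _ h.cyc) h.ev_z h.ev_z _ (by simp [h1, h2]), wd, wd, wd,
      List.map_append, ← cup_ev, List.length_map, h1, cupB_apply]
  simp only [ww, ← cupB_apply, map_add, LinearMap.add_apply, e, len1, len2]
  exact_mod_cast d22 a b

omit h
include hγ

lemma ev_loop (j : Fin 6) (J : List (Option (Fin 6))) :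
    ev (J.map fun α => xf (α.elim 0 f)) (pc ℝ (γ j)) = eL j J := by
  have h1 := (pc_Z (R := ℝ) (γ j)).1
  by_cases hJ : J.length = 1
  · obtain ⟨_ | i, rfl⟩ := List.length_eq_one_iff.1 hJ
    · exact (ev_zero (by simp [Pi.zero_def]) (fun _ => xf_const 0) h1).trans (by simp [eL])
    · exact (ev_one _ h1).trans ((hγ i j).trans (by simp [eL]))
  · rw [ev_In h1 (by simpa using Ne.symm hJ), eL, if_neg (by rintro rfl; exact hJ rfl),
      Int.cast_zero]

include h

lemma Surf.sp_one : Sp 1 (range fun j => pc ℝ (γ j)) := by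
  refine ⟨by rintro _ ⟨j, rfl⟩; exact pc_Z _, fun c hc => mem_sup_of_sub
    (Submodule.sum_mem _ (t := Finset.univ) fun j _ => Submodule.smul_mem _ (xf (f j) c)
      (Submodule.subset_span (mem_range_self j))) (null_of_dies (u := fun i => xf (f i))
        (fun φ hφ => ⟨fun j => φ (pc ℝ (γ j)), ?_⟩)
        (sub_mem hc (Submodule.sum_mem _ fun j _ => Submodule.smul_mem _ _ (pc_Z _)))
        fun i => by simp [hγ])⟩
  have h1 := hφ.sub (Coc_sum Finset.univ fun j => Coc_smul (φ (pc ℝ (γ j))) (Coc_xf (h.cont j)))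
  refine dies_of_loops h1 (x := o) fun δ => ?_
  choose n hn using fun i => xf_int (h.cont i) (pc_Z δ)
  simp only [cf_pc] at hn
  have := h1.apply_B (cf_B (Int.castRingHom ℝ) (h.det (pc ℤ δ - ∑ j, n j • pc ℤ (γ j))
    (sub_mem (pc_Z δ) (Submodule.sum_mem _ fun j _ => Submodule.smul_mem _ _ (pc_Z _)))
    fun i => by simp [hn, cf_pc, hγ, -map_zsmul, cf_smul]))
  simpa [cf_pc, hγ, -map_zsmul, cf_smul, hn, mul_comm] using this

omit hγ
include hS

lemma Surf.sp_two : Sp 2 {cR z} := by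
  have h1 := cf_Z (Int.castRingHom ℝ) h.cyc
  refine ⟨fun _ h => h ▸ h1, fun c hc => ?_⟩
  obtain ⟨r, hr⟩ := loc_gen hS (x := Classical.arbitrary S) (Z_mono le_rfl (empty_subset _) h1)
    (fund_of_cycle hS h1 (fun h2 => by simpa [Jn] using (h.pair 0 1).symm.trans ((Coc_ev'
      (fun i => Coc_xf (h.cont i)) [0, 1]).apply_B h2)) _) (Z_mono le_rfl (empty_subset _) hc)
  exact mem_sup_of_sub (Submodule.smul_mem _ r (Submodule.mem_span_singleton_self _))
    (by_contra fun h2 => fund_of_cycle hS (sub_mem hc (Submodule.smul_mem _ r h1)) h2 _ hr)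

include hγ

lemma Surf.span {φ : C ℝ (S × S) →ₗ[ℝ] ℝ} (hφ : Coc univ 2 φ)
    (hs : ∀ c, φ (map Prod.swap c) = φ c) :
    ∃ t : Option Pr → ℝ, ∀ c ∈ Z ℝ univ ∅ 2, φ c = (∑ i, t i • ww f i) c := by
  have z0 := (sp_zero o).1 _ rfl
  have z2 := cf_Z (Int.castRingHom ℝ) h.cyc
  let m := fun k l => φ (cross (pc ℝ (γ k)) (pc ℝ (γ l)))
  let t : Option Pr → ℝ := fun a => a.elim (φ (cross (cR z) (pt ℝ o)) -
    ∑ p : Pr, m p.1.1 p.1.2 * Jn p.1.1 p.1.2) fun p => m p.1.1 p.1.2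
  have hψ := hφ.sub (coc_comb _ h.coc_ww t)
  refine ⟨t, fun c hc => sub_eq_zero.1 (kunneth (n := 1) hψ (fun p q hpq => ?_) hc)⟩
  have e : ∀ {p q c d E E'} (_ : c ∈ Z ℝ univ ∅ p) (_ : d ∈ Z ℝ univ ∅ q) (_ : ∀ J, _ = _)
      (_ : ∀ J, _ = _) (_ : 2 = p + q) (a), ww f a (cross c d) =
        (sE p E E' (W1 a) + sE p E E' (W2 a) : ℤ) := fun hc hd h1 h2 h3 a => by
    rw [ww, LinearMap.add_apply, h.wd_cross hc hd h1 h2 _ ((len1 a).trans h3),
      h.wd_cross hc hd h1 h2 _ ((len2 a).trans h3), Int.cast_add]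
  obtain ⟨rfl, rfl⟩ | ⟨rfl, rfl⟩ | ⟨rfl, rfl⟩ : p = 0 ∧ q = 2 ∨ p = 1 ∧ q = 1 ∨ p = 2 ∧ q = 0 := by
    omega
  · refine (sp_zero o).kills (h.sp_two hS) hψ ?_
    rintro _ rfl _ rfl
    simp [e z0 z2 ev_pt h.ev_z rfl, d02, G16, t, ← hs (cross (cR z) _), swap_cross z2.1 z0.1]
  · refine (h.sp_one hγ).kills (h.sp_one hγ) hψ ?_
    rintro _ ⟨k, rfl⟩ _ ⟨l, rfl⟩
    simpa [e (pc_Z _) (pc_Z _) (ev_loop hγ k) (ev_loop hγ l) rfl, d11, t, sub_eq_zero] using
      (sum_anti (m := m) (fun k l => by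
        simp [m, ← hs (cross (pc ℝ (γ k)) _), swap_cross (pc_Z _).1 (pc_Z _).1]) k l).symm
  · refine (h.sp_two hS).kills (sp_zero o) hψ ?_
    rintro _ rfl _ rfl
    simp [e z2 z0 h.ev_z ev_pt rfl, d20, G16, t]

omit hγ

theorem Surf.model : ∃ (μ : Sing.Ch ℤ (SP S) 4) (F : C(SP S, T6)) (x : SP S), IsFund μ ∧ PiIso F x ∧
    Prs (fun i y => F y i) (cR (br ℤ 4 μ)) 1 ∧ Module.finrank ℝ (Sing.Coh ℝ (SP S) 2) ≤ 16 ∧
      bPlus (SP S) μ ≤ 7 := by
  obtain ⟨o⟩ : Nonempty S := inferInstance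
  choose c hc h1 using h.dual
  choose γ h2 using fun j => exists_loop (fun i => Coc_xf (h.cont i)) o (hc j)
  have hγ := fun i j => (h2 j i).trans (h1 j i)
  have hM := locEuc_SP hS
  let F : C(SP S, T6) := ⟨_, continuous_spLift (g := fun y i => f i y.1 + f i y.2)
    (continuous_pi fun i => ((h.cont i).comp continuous_fst).add ((h.cont i).comp continuous_snd))
    fun a b => funext fun i => add_comm _ _⟩
  have hF : ∀ i, Continuous fun y => F y i := fun i => by fun_prop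
  have hp : ∀ {R : Type} [CommRing R] (c : C R (S × S)), map pr (map Prod.swap c) = map pr c :=
    fun c => by rw [map_map' continuous_swap, show pr ∘ Prod.swap = pr from funext pr_swap]
  have h3 : map pr (crossA z z) ∈ In ℤ univ 5 :=
    map_In' continuous_pr (In_univ (crossA_In h.cyc.1 h.cyc.1))
  have h4 : map pr (cross z z) = (2 : ℤ) • map pr (crossA z z) := by
    rw [cross_half h.cyc.1 h.cyc.1, map_add, hp, two_smul]
  have h5 : map pr (crossA z z) ∈ Z ℤ univ ∅ 4 := mem_Z h3 (by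
    have := Z_D_eq (n := 3) (map_Z' continuous_pr (cross_Z (p := 2) (q := 2) h.cyc h.cyc))
    rwa [h4, map_smul, smul_eq_zero, or_iff_right two_ne_zero] at this)
  obtain ⟨μ, hμ, h6⟩ := exists_cyc h5
  have z2 := cf_Z (Int.castRingHom ℝ) h.cyc
  have z4 : cross (cR z) (cR z) ∈ Z ℝ univ ∅ 4 := by simpa using cross_Z z2 z2
  have h7 : map pr (cross (cR z) (cR z)) = (2 : ℝ) • cR (br ℤ 4 μ) := by
    rw [← cf_cross, ← cf_map, h4, h6, cf_smul]
    rfl
  have h8 : Prs (fun i y => F y i) (cR (br ℤ 4 μ)) 1 := fun i j k l => by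
    have := h.wd_cross z2 z2 h.ev_z h.ev_z [(i, i), (j, j), (k, k), (l, l)] rfl
    have e := ev_map' continuous_pr (fun i => xf fun y => F y i) [i, j, k, l]
      (cross (cR z) (cR z))
    simp only [h7, map_smul, xf_map continuous_pr] at e
    rw [dpf] at this
    simpa using e.trans this
  have hs : ∀ a : C ℝ (SP S) →ₗ[ℝ] ℝ, Coc univ 2 a → ∃ t : Option Pr → ℝ,
      ∀ c ∈ Z ℝ univ ∅ 2, a (map pr c) = (∑ i, t i • ww f i) c := fun a ha =>
    h.span hγ hS (Coc_map continuous_pr ha) fun c => congrArg a (hp c)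
  have h9 : ∀ i (d : Path o o), xf (fun y => F y i) (pc ℝ (d.map (continuous_jj o))) =
      xf (f i) (pc ℝ d) := fun i d => by
    rw [← map_pc, xf_map' (continuous_jj o)]
    exact (xf_add (g := fun _ => f i o) (h.cont i) continuous_const (pc_Z d).1).trans
      (by rw [xf_const _ (pc_Z d).1, add_zero])
  have z5 := cf_Z (Int.castRingHom ℝ) (br_mem_Z.2 hμ)
  obtain ⟨τ, hτ⟩ := exists_isThom hM z5 (fund_of_cycle hM (c := cR (br ℤ 4 μ)) z5
    (h8.not_B hF one_ne_zero))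
  refine ⟨μ, F, pr (o, o), ⟨hμ, fun x c hc => ?_⟩,
    bij_of_wd (γ := fun j => (γ j).map (continuous_jj o)) ⟨hF, fun δ hδ => ?_,
      fun i j => (h9 i _).trans (hγ i j)⟩, h8,
    (finrank_Coh_le continuous_pr _ hs fun a ha h0 => hτ.pd_inj hM (m := 2) rfl ha ?_).trans
      (by decide), ?_⟩
  · obtain ⟨r, hr⟩ := gen_of_word hM hF (I := [0, 1, 2, 3]) rfl (br_mem_Z.2 hμ)
      ((h8 0 1 2 3).trans (by simp [Pf, Jn])) x _ (br_mem_Z_rel.2 hc)
    obtain ⟨d, hd⟩ := br_mem_B_rel.1 (show br ℤ 4 (c - r • μ) ∈ _ by rwa [map_sub, map_smul])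
    exact ⟨r, by simpa [RelHlg, Sing.bdry] using (Submodule.add_mem_sup
      (LinearMap.mem_range_self (Sing.bd ℤ _ 4) d) hd)⟩
  · obtain ⟨d, hd⟩ := exists_loop_jj hS o δ
    exact hd.trans (jj_null hS o d (mem_B_empty (h.det (pc ℤ d) (pc_Z d) fun i => by
      rw [cf_pc, ← h9, ← pc_homotopic (Coc_xf (hF i)) hd, hδ])))
  · have := Submodule.smul_mem _ (2⁻¹ : ℝ) (map_B' continuous_pr
      ((dies_of_kills (φ := a ∘ₗ map pr) h0).cap_B (k := 2) z4))
    rwa [map_cap continuous_pr.continuousOn _ _ z4.1, h7, map_smul, smul_smul,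
      inv_mul_cancel₀ two_ne_zero, one_smul] at this
  · have := bPlus_le continuous_pr _ hs h.coc_ww z4 h7 ((Matrix.of A9).map (↑)).mulVecLin
      fun s hs => by
        rw [sum_comb]
        exact neg_def _ (Matrix.of A9) two_pos h.cup_ww _ gram9 s hs
    simp only [Fintype.card_fin, show Fintype.card (Option Pr) = 16 by decide] at this
    omega

end Pool.Agent.Lib.MP_18d288_gt
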