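import Pool.Agent.Shared.Sing.Glob

/-! The symmetric square of a surface is a four-manifold. -/

namespace Pool.Agent.Lib.MP_18d288_gt

open Set Topology Pool.Agent.Shared.Sing

/-- the swap relation -/
def swapSetoid (S : Type) : Setoid (S × S) where
  r p q := p = q ∨ p = q.swap
  iseqv := ⟨fun _ => Or.inl rfl, fun {p q} h => h.imp Eq.symm fun h => by rw [h, Prod.swap_swap],
    fun {p q r} h h' => by
      rcases h with rfl | rfl
      · exact h'
      · rcases h' with rfl | rfl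
        · exact Or.inr rfl
        · exact Or.inl (Prod.swap_swap _)⟩

/-- the symmetric square -/
def SP (S : Type) : Type := Quotient (swapSetoid S)

/-- the projection to the symmetric square -/
def pr {S : Type} (p : S × S) : SP S := Quotient.mk (swapSetoid S) p

theorem pr_eq_iff {S : Type} {p q : S × S} : pr p = pr q ↔ p = q ∨ p = q.swap :=
  Quotient.eq (r := swapSetoid S)

theorem pr_swap {S : Type} (p : S × S) : pr p.swap = pr p := pr_eq_iff.2 (Or.inr rfl)

theorem pr_comm {S : Type} (a b : S) : pr (a, b) = pr (b, a) := pr_swap (b, a)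

theorem pr_surjective {S : Type} : Function.Surjective (pr : S × S → SP S) :=
  Quotient.mk_surjective

theorem eq_of_pr_diag {S : Type} {p : S × S} {o : S} (h : pr p = pr (o, o)) : p = (o, o) :=
  (pr_eq_iff.1 h).elim id id

/-- symmetric functions descend -/
def spLift {S : Type} {T : Type*} (g : S × S → T) (h : ∀ a b, g (a, b) = g (b, a)) : SP S → T :=
  Quotient.lift g (by
    rintro p ⟨a, b⟩ (rfl | rfl)
    · rfl
    · exact h b a)

theorem spLift_pr {S : Type} {T : Type*} (g : S × S → T) (h : ∀ a b, g (a, b) = g (b, a))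
    (p : S × S) : spLift g h (pr p) = g p := rfl

variable {S : Type} [TopologicalSpace S]

instance spTop : TopologicalSpace (SP S) :=
  inferInstanceAs (TopologicalSpace (Quotient (swapSetoid S)))

theorem isQuotientMap_pr : IsQuotientMap (pr : S × S → SP S) := isQuotientMap_quotient_mk'

theorem continuous_pr : Continuous (pr : S × S → SP S) := isQuotientMap_pr.continuous

omit [TopologicalSpace S] in
theorem preimage_image_pr (U : Set (S × S)) : pr ⁻¹' (pr '' U) = U ∪ Prod.swap ⁻¹' U := by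
  ext p
  constructor
  · rintro ⟨q, hq, e⟩
    rcases pr_eq_iff.1 e with rfl | rfl
    · exact Or.inl hq
    · exact Or.inr hq
  · rintro (h | h)
    · exact ⟨p, h, rfl⟩
    · exact ⟨p.swap, h, pr_swap p⟩

theorem isOpenMap_pr : IsOpenMap (pr : S × S → SP S) := fun U hU => by
  rw [← isQuotientMap_pr.isOpen_preimage, preimage_image_pr]
  exact hU.union (hU.preimage continuous_swap)

theorem isOpenQuotientMap_pr : IsOpenQuotientMap (pr : S × S → SP S) :=
  ⟨pr_surjective, continuous_pr, isOpenMap_pr⟩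

theorem continuous_spLift {T : Type*} [TopologicalSpace T] {g : S × S → T} (hg : Continuous g)
    (h : ∀ a b, g (a, b) = g (b, a)) : Continuous (spLift g h) :=
  isQuotientMap_pr.continuous_iff.2 hg

theorem exists_lift {T : Type*} [TopologicalSpace T] {g : S × S → T} (hg : Continuous g)
    (h : ∀ a b, g (a, b) = g (b, a)) : ∃ F : SP S → T, Continuous F ∧ F ∘ pr = g :=
  ⟨spLift g h, continuous_spLift hg h, rfl⟩

instance spT2 [T2Space S] : T2Space (SP S) := by
  rw [t2Space_iff_of_isOpenQuotientMap isOpenQuotientMap_pr]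
  simp only [pr_eq_iff, ofPred_or]
  exact (isClosed_eq continuous_fst continuous_snd).union
    (isClosed_eq continuous_fst (continuous_swap.comp continuous_snd))

instance spCompact [CompactSpace S] : CompactSpace (SP S) :=
  pr_surjective.compactSpace continuous_pr

instance spPathConnected [PathConnectedSpace S] : PathConnectedSpace (SP S) :=
  pr_surjective.pathConnectedSpace continuous_pr

instance spNonempty [Nonempty S] : Nonempty (SP S) :=
  ⟨pr (Classical.arbitrary S, Classical.arbitrary S)⟩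

theorem isOpenMap_symq : IsOpenMap fun q : ℂ × ℂ => (q.1 + q.2, (q.1 - q.2) ^ 2) := by
  let e : ℂ × ℂ ≃ₜ ℂ × ℂ :=
    { toFun := fun q => (q.1 + q.2, q.1 - q.2)
      invFun := fun q => ((q.1 + q.2) / 2, (q.1 - q.2) / 2)
      left_inv := fun q => Prod.ext (by simp) (by simp)
      right_inv := fun q => Prod.ext (by simp; ring) (by simp; ring)
      continuous_toFun := by fun_prop
      continuous_invFun := by fun_prop }
  exact (IsOpenMap.id.prodMap (Complex.isOpenQuotientMap_pow 2).isOpenMap).comp e.isOpenMap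

theorem exists_chart_SP [Nonempty S] (κ : OpenPartialHomeomorph S ℂ) :
    ∃ ψ : OpenPartialHomeomorph (SP S) (ℂ × ℂ), ψ.source = pr '' (κ.source ×ˢ κ.source) ∧
      ∀ s t, ψ (pr (s, t)) = (κ s + κ t, (κ s - κ t) ^ 2) := by
  let F : SP S → ℂ × ℂ := spLift (fun p => (κ p.1 + κ p.2, (κ p.1 - κ p.2) ^ 2))
    fun a b => Prod.ext (add_comm _ _) (by simp only; ring)
  have hO : IsOpen (κ.source ×ˢ κ.source) := κ.open_source.prod κ.open_source
  have hsat : pr ⁻¹' (pr '' (κ.source ×ˢ κ.source)) = κ.source ×ˢ κ.source := by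
    rw [preimage_image_pr, preimage_swap_prod, union_self]
  have hinj : InjOn F (pr '' (κ.source ×ˢ κ.source)) := by
    rintro _ ⟨⟨a, b⟩, hp, rfl⟩ _ ⟨⟨c, d⟩, hq, rfl⟩ e
    have e1 : κ a + κ b = κ c + κ d := congrArg Prod.fst e
    have e2 : (κ a - κ b) ^ 2 = (κ c - κ d) ^ 2 := congrArg Prod.snd e
    rcases sq_eq_sq_iff_eq_or_eq_neg.1 e2 with e3 | e3
    · have ha : a = c := κ.injOn hp.1 hq.1
        (show κ a = κ c by linear_combination (e1 + e3) / 2)
      have hb : b = d := κ.injOn hp.2 hq.2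
        (show κ b = κ d by linear_combination (e1 - e3) / 2)
      rw [ha, hb]
    · have ha : a = d := κ.injOn hp.1 hq.2
        (show κ a = κ d by linear_combination (e1 + e3) / 2)
      have hb : b = c := κ.injOn hp.2 hq.1
        (show κ b = κ c by linear_combination (e1 - e3) / 2)
      rw [ha, hb, pr_comm]
  have hcont : ContinuousOn F (pr '' (κ.source ×ˢ κ.source)) := by
    rintro _ ⟨p, hp, rfl⟩
    refine ContinuousAt.continuousWithinAt ?_
    rw [← isOpenQuotientMap_pr.continuousAt_comp_iff]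
    have h1 := (κ.continuousAt hp.1).comp continuousAt_fst
    have h2 := (κ.continuousAt hp.2).comp continuousAt_snd
    exact (h1.add h2).prodMk ((h1.sub h2).pow 2)
  refine ⟨OpenPartialHomeomorph.ofContinuousOpenRestrict (hinj.toPartialEquiv F _) hcont ?_
    (isOpenMap_pr _ hO), rfl, fun s t => rfl⟩
  intro W hW
  have h1 : IsOpen (pr ⁻¹' (Subtype.val '' W)) :=
    ((isOpenMap_pr _ hO).isOpenMap_subtype_val _ hW).preimage continuous_pr
  have h2 : pr ⁻¹' (Subtype.val '' W) ⊆ (κ.prod κ).source := by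
    rintro p ⟨w, -, e⟩
    have : p ∈ pr ⁻¹' (pr '' (κ.source ×ˢ κ.source)) := by
      rw [mem_preimage, ← e]; exact w.2
    rwa [hsat] at this
  convert isOpenMap_symq _ ((κ.prod κ).isOpen_image_of_subset_source h1 h2) using 1
  ext z
  constructor
  · rintro ⟨⟨_, p, hp, rfl⟩, hw, rfl⟩
    exact ⟨_, ⟨p, ⟨_, hw, rfl⟩, rfl⟩, rfl⟩
  · rintro ⟨_, ⟨p, ⟨w, hw, e⟩, rfl⟩, rfl⟩
    refine ⟨w, hw, ?_⟩
    change F w.1 = _
    rw [e]
    rfl

theorem exists_chart_ball (hS : LocEuc (Fin 2) S) (a : S) {O : Set S} (hO : IsOpen O) (ha : a ∈ O)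
    (c : ℂ) : ∃ κ : OpenPartialHomeomorph S ℂ, a ∈ κ.source ∧ κ.source ⊆ O ∧
      κ.target ⊆ Metric.ball c 1 := by
  obtain ⟨φ, hφ⟩ := hS a
  let e : (Fin 2 → ℝ) ≃L[ℝ] ℂ := ContinuousLinearEquiv.ofFinrankEq (by simp)
  let e' : (Fin 2 → ℝ) ≃ₜ ℂ := e.toHomeomorph.trans (Homeomorph.addRight (c - e (φ a)))
  let κ₀ := (φ.restrOpen O hO).transHomeomorph e'
  refine ⟨κ₀.trans (OpenPartialHomeomorph.ofSet (Metric.ball c 1) Metric.isOpen_ball), ?_, ?_, ?_⟩
  · refine ⟨⟨hφ, ha⟩, ?_⟩
    simp [κ₀, e']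
  · exact fun x hx => hx.1.2
  · exact fun x hx => hx.1

theorem exists_common_chart [T2Space S] (hS : LocEuc (Fin 2) S) (a b : S) :
    ∃ κ : OpenPartialHomeomorph S ℂ, a ∈ κ.source ∧ b ∈ κ.source := by
  classical
  rcases eq_or_ne a b with rfl | hab
  · obtain ⟨κ, h, -⟩ := exists_chart_ball hS a isOpen_univ (mem_univ _) 0
    exact ⟨κ, h, h⟩
  · obtain ⟨O, O', hO, hO', ha, hb, hd⟩ := t2_separation hab
    obtain ⟨κ, h1, h2, h3⟩ := exists_chart_ball hS a hO ha 0
    obtain ⟨κ', h1', h2', h3'⟩ := exists_chart_ball hS b hO' hb 2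
    refine ⟨κ.disjointUnion κ' (hd.mono h2 h2') (Disjoint.mono h3 h3' ?_), Or.inl h1, Or.inr h1'⟩
    exact Metric.ball_disjoint_ball (by simp; norm_num)

theorem exists_chart_at [T2Space S] (hS : LocEuc (Fin 2) S) (x : SP S) :
    ∃ ψ : OpenPartialHomeomorph (SP S) (ℂ × ℂ), x ∈ ψ.source := by
  obtain ⟨⟨a, b⟩, rfl⟩ := pr_surjective x
  have : Nonempty S := ⟨a⟩
  obtain ⟨κ, ha, hb⟩ := exists_common_chart hS a b
  obtain ⟨ψ, h, -⟩ := exists_chart_SP κ
  exact ⟨ψ, h ▸ ⟨(a, b), ⟨ha, hb⟩, rfl⟩⟩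

theorem locEuc_SP [T2Space S] (hS : LocEuc (Fin 2) S) : LocEuc (Fin 4) (SP S) := fun x => by
  obtain ⟨ψ, h⟩ := exists_chart_at hS x
  let e : (ℂ × ℂ) ≃L[ℝ] (Fin 4 → ℝ) := ContinuousLinearEquiv.ofFinrankEq (by simp)
  exact ⟨ψ.transHomeomorph e.toHomeomorph, h⟩

theorem charted_of_locEuc {Y : Type} [TopologicalSpace Y] {ι : Type} [Fintype ι]
    (h : LocEuc ι Y) : Nonempty (ChartedSpace (EuclideanSpace ℝ ι) Y) := by
  choose φ hφ using h
  let e : (ι → ℝ) ≃ₜ EuclideanSpace ℝ ι := (EuclideanSpace.equiv ι ℝ).symm.toHomeomorph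
  exact ⟨⟨range fun x => (φ x).transHomeomorph e, fun x => (φ x).transHomeomorph e, hφ,
    fun x => ⟨x, rfl⟩⟩⟩

theorem charted_SP [T2Space S] (hS : LocEuc (Fin 2) S) :
    Nonempty (ChartedSpace (EuclideanSpace ℝ (Fin 4)) (SP S)) :=
  charted_of_locEuc (locEuc_SP hS)

end Pool.Agent.Lib.MP_18d288_gt
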