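import Pool.Agent.Lib.MP_18d288_gt.SymA

/-! Loops in the symmetric square of a surface. -/

namespace Pool.Agent.Lib.MP_18d288_gt

open Set Topology Pool.Agent.Shared.Sing unitInterval

theorem exists_good_nhds {Y : Type} [TopologicalSpace Y] {ι : Type} [Fintype ι]
    (h : LocEuc ι Y) (y : Y) : ∃ U : Set Y, IsOpen U ∧ y ∈ U ∧ IsPreconnected U ∧
      ∀ (a b : Y) (p q : Path a b), range p ⊆ U → range q ⊆ U → p.Homotopic q := by
  obtain ⟨φ, hφ⟩ := h y
  obtain ⟨r, hr, hB⟩ := Metric.isOpen_iff.1 φ.open_target _ (φ.map_source hφ)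
  refine ⟨φ.source ∩ φ ⁻¹' Metric.ball (φ y) r,
    φ.isOpen_inter_preimage Metric.isOpen_ball, ⟨hφ, Metric.mem_ball_self hr⟩, ?_, ?_⟩
  · rw [← φ.symm_image_eq_source_inter_preimage hB]
    exact (convex_ball _ _).isPreconnected.image _ (φ.continuousOn_symm.mono hB)
  · intro a b p q hp hq
    have hp' : ∀ t, p t ∈ φ.source ∩ φ ⁻¹' Metric.ball (φ y) r := fun t => hp ⟨t, rfl⟩
    have hq' : ∀ t, q t ∈ φ.source ∩ φ ⁻¹' Metric.ball (φ y) r := fun t => hq ⟨t, rfl⟩
    have cp : Continuous fun t => φ (p t) :=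
      φ.continuousOn.comp_continuous p.continuous fun t => (hp' t).1
    have cq : Continuous fun t => φ (q t) :=
      φ.continuousOn.comp_continuous q.continuous fun t => (hq' t).1
    have hm : ∀ z : I × I, (1 - (z.1 : ℝ)) • φ (p z.2) + (z.1 : ℝ) • φ (q z.2) ∈ φ.target :=
      fun z => hB (convex_ball _ _ (hp' _).2 (hq' _).2 (one_minus_nonneg _) (nonneg _)
        (sub_add_cancel _ _))
    refine ⟨⟨⟨⟨fun z => φ.symm ((1 - (z.1 : ℝ)) • φ (p z.2) + (z.1 : ℝ) • φ (q z.2)),
      φ.continuousOn_symm.comp_continuous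
        (((continuous_const.sub (continuous_subtype_val.comp continuous_fst)).smul
          (cp.comp continuous_snd)).add
          ((continuous_subtype_val.comp continuous_fst).smul (cq.comp continuous_snd))) hm⟩, fun t => ?_, fun t => ?_⟩,
      fun s t ht => ?_⟩⟩
    · simp [φ.left_inv (hp' t).1]
    · simp [φ.left_inv (hq' t).1]
    · have e : q t = p t := by
        rcases ht with rfl | rfl <;> simp
      change φ.symm ((1 - (s : ℝ)) • φ (p t) + (s : ℝ) • φ (q t)) = p t
      rw [e, ← add_smul, sub_add_cancel, one_smul, φ.left_inv (hp' t).1]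

variable {S : Type} [TopologicalSpace S]

theorem exists_joinedIn [LocallyPathConnectedSpace S] {U : Set (SP S)} (hU : IsOpen U)
    (hc : IsPreconnected U) {x : S × S} (hx : pr x ∈ U) {y : SP S} (hy : y ∈ U) :
    ∃ x', JoinedIn (pr ⁻¹' U) x x' ∧ pr x' = y := by
  have ho : ∀ z : S × S, IsOpen (pr '' pathComponentIn (pr ⁻¹' U) z) := fun z =>
    isOpenMap_pr _ ((hU.preimage continuous_pr).pathComponentIn z)
  have hsw : ∀ {u v : S × S}, JoinedIn (pr ⁻¹' U) u v → JoinedIn (pr ⁻¹' U) u.swap v.swap := by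
    rintro u v ⟨γ, hγ⟩
    exact ⟨γ.map continuous_swap, fun t => by
      have := hγ t
      rw [mem_preimage, ← pr_swap] at this
      exact this⟩
  have hB : IsOpen (U \ pr '' pathComponentIn (pr ⁻¹' U) x) := by
    rw [isOpen_iff_forall_mem_open]
    rintro w ⟨hw, hn⟩
    obtain ⟨z, rfl⟩ := pr_surjective w
    refine ⟨_, ?_, ho z, ⟨z, mem_pathComponentIn_self hw, rfl⟩⟩
    rintro _ ⟨v, hv, rfl⟩
    refine ⟨pathComponentIn_subset (F := pr ⁻¹' U) hv, ?_⟩
    rintro ⟨u, hu, e⟩
    rcases pr_eq_iff.1 e with rfl | rfl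
    · exact hn ⟨z, JoinedIn.trans hu (JoinedIn.symm hv), rfl⟩
    · exact hn ⟨z.swap, JoinedIn.trans hu (JoinedIn.symm (hsw hv)), pr_swap z⟩
  have := hc.subset_left_of_subset_union (ho x) hB disjoint_sdiff_right
    (fun w hw => by
      by_cases h : w ∈ pr '' pathComponentIn (pr ⁻¹' U) x
      · exact Or.inl h
      · exact Or.inr ⟨hw, h⟩)
    ⟨pr x, hx, x, mem_pathComponentIn_self hx, rfl⟩
  exact this hy

/-- a path is, up to homotopy, the image of a path starting at `x` -/
def Lifts {a b : SP S} (q : Path a b) (x : S × S) : Prop :=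
  ∃ (x' : S × S) (d : Path x x') (h₀ : a = pr x) (h₁ : b = pr x'),
    ((d.map continuous_pr).cast h₀ h₁).Homotopic q

theorem Lifts.trans {a b c : SP S} {q : Path a b} {r : Path b c} {x : S × S} (h : Lifts q x)
    (h' : ∀ x', b = pr x' → Lifts r x') : Lifts (q.trans r) x := by
  obtain ⟨x', d, rfl, rfl, H⟩ := h
  obtain ⟨x'', d', _, rfl, H'⟩ := h' x' rfl
  refine ⟨x'', d.trans d', rfl, rfl, ?_⟩
  rw [Path.map_trans]
  exact H.hcomp H'

theorem Lifts.homotopic {a b : SP S} {q q' : Path a b} {x : S × S} (h : Lifts q x)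
    (e : q.Homotopic q') : Lifts q' x := by
  obtain ⟨x', d, h₀, h₁, H⟩ := h
  exact ⟨x', d, h₀, h₁, H.trans e⟩

theorem locPC_of_locEuc {Y : Type} [TopologicalSpace Y] {ι : Type} [Fintype ι]
    (h : LocEuc ι Y) : LocallyPathConnectedSpace Y := by
  obtain ⟨c⟩ := charted_of_locEuc h
  exact ChartedSpace.locallyPathConnectedSpace (EuclideanSpace ℝ ι) Y

theorem lifts_all [T2Space S] (hS : LocEuc (Fin 2) S) {a b : SP S} (g : Path a b) (x : S × S)
    (hx : a = pr x) : Lifts g x := by
  have := locPC_of_locEuc hS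
  have key : ∀ t : I, ∀ᶠ s in 𝓝 t, (Lifts (g.subpath 0 s) x ↔ Lifts (g.subpath 0 t) x) := by
    intro t
    obtain ⟨U, hU, ht, hc, hh⟩ := exists_good_nhds (locEuc_SP hS) (g t)
    have hl : ∀ (u v : SP S) (q : Path u v), range q ⊆ U → ∀ z, u = pr z → Lifts q z := by
      rintro _ v q hq z rfl
      obtain ⟨z', ⟨d, hd⟩, rfl⟩ := exists_joinedIn hU hc (x := z) (hq ⟨0, q.source⟩)
        (hq ⟨1, q.target⟩)
      refine ⟨z', d, rfl, rfl, hh _ _ _ _ ?_ hq⟩
      rintro _ ⟨s, rfl⟩
      exact hd s
    have hN : g ⁻¹' U ∈ 𝓝 t := (hU.preimage g.continuous).mem_nhds ht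
    filter_upwards [ordConnectedComponent_mem_nhds.2 hN] with s hs
    have hst : g '' uIcc t s ⊆ U := image_subset_iff.2 hs
    constructor
    · intro h
      refine (h.trans (hl _ _ (g.subpath s t) ?_)).homotopic
        ⟨Path.Homotopy.subpathTransSubpath g 0 s t⟩
      rwa [Path.range_subpath, uIcc_comm]
    · intro h
      refine (h.trans (hl _ _ (g.subpath t s) ?_)).homotopic
        ⟨Path.Homotopy.subpathTransSubpath g 0 t s⟩
      rwa [Path.range_subpath]
  have hlc : IsLocallyConstant fun t : I => Lifts (g.subpath 0 t) x :=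
    (IsLocallyConstant.iff_eventually_eq _).2 fun t => (key t).mono fun s hs => propext hs
  have h0 : Lifts (g.subpath 0 0) x := by
    refine ⟨x, Path.refl x, g.source.trans hx, g.source.trans hx, ?_⟩
    rw [Path.subpath_self]
    convert Path.Homotopic.refl _ using 1
    ext t
    simp [hx]
  have h1 : Lifts (g.subpath 0 1) x := by
    have := hlc.apply_eq_of_preconnectedSpace 0 1
    exact this ▸ h0
  obtain ⟨x', d, h₀, h₁, H⟩ := h1
  rw [Path.subpath_zero_one] at H
  exact ⟨x', d, hx, g.target.symm.trans h₁, H.pathCast g.source.symm g.target.symm⟩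

/-- (2) every loop at a diagonal point is homotopic to the image of a loop -/
theorem exists_lift_loop [T2Space S] (hS : LocEuc (Fin 2) S) (o : S)
    (g : Path (pr (o, o)) (pr (o, o))) :
    ∃ d : Path (o, o) (o, o), g.Homotopic (d.map continuous_pr) := by
  obtain ⟨x', d, h₀, h₁, H⟩ := lifts_all hS g (o, o) rfl
  obtain rfl := eq_of_pr_diag h₁.symm
  exact ⟨d, H.symm⟩

/-- the inclusion of the surface -/
abbrev jj (o : S) (a : S) : SP S := pr (a, o)

theorem continuous_jj (o : S) : Continuous (jj o) :=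
  continuous_pr.comp (continuous_id.prodMk continuous_const)

theorem map_prod_refl (o : S) (d : Path o o) :
    (d.prod (Path.refl o)).map continuous_pr = d.map (continuous_jj o) := by
  ext t
  rfl

theorem map_refl_prod (o : S) (d : Path o o) :
    ((Path.refl o).prod d).map continuous_pr = d.map (continuous_jj o) := by
  ext t
  exact pr_comm _ _

theorem map_prod_left (o : S) (d e : Path o o) :
    ((d.prod e).map continuous_pr).Homotopic
      ((d.map (continuous_jj o)).trans (e.map (continuous_jj o))) := by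
  rw [← map_prod_refl o d, ← map_refl_prod o e, ← Path.map_trans, Path.trans_prod_eq_prod_trans]
  exact Path.Homotopic.map ⟨Path.Homotopic.prodHomotopy (Path.Homotopy.transRefl d).symm
    (Path.Homotopy.reflTrans e).symm⟩ ⟨pr, continuous_pr⟩

theorem map_prod_right (o : S) (d e : Path o o) :
    ((d.prod e).map continuous_pr).Homotopic
      ((e.map (continuous_jj o)).trans (d.map (continuous_jj o))) := by
  rw [← map_prod_refl o d, ← map_refl_prod o e, ← Path.map_trans, Path.trans_prod_eq_prod_trans]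
  exact Path.Homotopic.map ⟨Path.Homotopic.prodHomotopy (Path.Homotopy.reflTrans d).symm
    (Path.Homotopy.transRefl e).symm⟩ ⟨pr, continuous_pr⟩

/-- (3a) every loop at a diagonal point comes from the surface -/
theorem exists_loop_jj [T2Space S] (hS : LocEuc (Fin 2) S) (o : S)
    (g : Path (pr (o, o)) (pr (o, o))) :
    ∃ d : Path o o, g.Homotopic (d.map (continuous_jj o)) := by
  obtain ⟨d, H⟩ := exists_lift_loop hS o g
  let d₁ : Path o o := d.map continuous_fst
  let d₂ : Path o o := d.map continuous_snd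
  refine ⟨d₁.trans d₂, H.trans ?_⟩
  rw [Path.map_trans]
  exact map_prod_left o d₁ d₂

/-- (3b) the fundamental group of the symmetric square is commutative -/
theorem fg_comm [T2Space S] (hS : LocEuc (Fin 2) S) (o : S)
    (p q : FundamentalGroup (SP S) (pr (o, o))) : p * q = q * p := by
  obtain ⟨g, rfl⟩ := Path.Homotopic.Quotient.mk_surjective p
  obtain ⟨g', rfl⟩ := Path.Homotopic.Quotient.mk_surjective q
  obtain ⟨d, H⟩ := exists_loop_jj hS o g
  obtain ⟨e, H'⟩ := exists_loop_jj hS o g'
  exact Path.Homotopic.Quotient.eq.2 ((H'.hcomp H).trans (((map_prod_right o d e).symm.trans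
    (map_prod_left o d e)).trans (H.hcomp H').symm))

end Pool.Agent.Lib.MP_18d288_gt
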