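import Pool.Agent.Lib.MP_18d288_gt.Wang

/-! Homology and fundamental group of tori. -/

set_option linter.unusedSectionVars false
set_option maxSynthPendingDepth 3

namespace Pool.Agent.Lib.MP_18d288_gt

open Finsupp Set Pool.Agent.Shared.Sing Pool.Agent.Shared.SingEZ

variable {X Y : Type*} [TopologicalSpace X] [Nonempty X] [TopologicalSpace Y] [Nonempty Y]
  {R : Type} [CommRing R]

lemma ev_one (u : C R Y →ₗ[R] R) {A : Set Y} {c : C R Y} (hc : c ∈ In R A 2) : ev [u] c = u c :=
  eq_edge (fun F hF _ v w => by rw [ev_cons hF, ev, e1_real]; simp) hc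

lemma ev_zero {us : List (C R Y →ₗ[R] R)} {u : C R Y →ₗ[R] R} (hu : u ∈ us) {A : Set Y}
    (h : ∀ c ∈ In R A 2, u c = 0) {n : ℕ} {c : C R Y} (hc : c ∈ In R A (n + 1)) : ev us c = 0 := by
  refine eq_In (g := 0) (fun F hF hA l _ => ?_) hc
  clear hc
  induction us generalizing l n with
  | nil => simp at hu
  | cons u' us ih =>
    obtain _ | ⟨v, _ | ⟨w, l⟩⟩ := l
    · exact ev_ne hF _ _ (by simp)
    · exact ev_ne hF _ _ (by simp)
    rw [ev_cons hF]
    rcases List.mem_cons.1 hu with rfl | hu
    · rw [h _ (glob_In hF hA _), zero_mul, LinearMap.zero_apply]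
    · rw [ih hu _ rfl]
      simp

lemma e1_cf {S : Type} [CommRing S] (φ : R →+* S) (c : C R Y) : e1 (cf φ c) = φ (e1 c) :=
  (LinearMap.congr_fun (bc_ev φ (fun _ : ℕ => 0) []) _).symm.trans (bc_cf φ _ c)

lemma shf_congr {ι M : Type*} [AddCommGroup M] {p : ℕ} {I : List ι} {f g : List ι → List ι → M}
    (h : ∀ J K, J.length = p → p + K.length = I.length → f J K = g J K) :
    shf p I f = shf p I g := by
  induction I generalizing p f g with
  | nil =>
    obtain _ | p := p
    exacts [h [] [] rfl rfl, rfl]
  | cons i I ih =>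
    obtain _ | p := p
    · exact ih fun J K h1 h2 => h _ _ h1 (by simpa using h2)
    · rw [shf, shf, ih fun J K h1 h2 => h _ _ (by simp [h1]) (by simp; omega),
        ih fun J K h1 h2 => h _ _ h1 (by simp; omega)]

lemma cont_coe : Continuous ((↑) : ℝ → UnitAddCircle) := continuous_quotient_mk'

/-- The torus. -/
abbrev Tor (n : ℕ) : Type := Fin n → UnitAddCircle

/-- The coordinates of the torus. -/
noncomputable def xN (n i : ℕ) (t : Tor n) : UnitAddCircle := if h : i < n then t ⟨i, h⟩ else 0

lemma xN_fin {n : ℕ} (i : Fin n) : xN n i = fun t => t i := funext fun _ => dif_pos i.2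

lemma cont_xN (n i : ℕ) : Continuous (xN n i) := by
  unfold xN
  split_ifs <;> fun_prop

lemma xN_succ (n i : ℕ) : xN (n + 1) (i + 1) = xN n i ∘ Fin.tail := by
  funext t
  simp [xN, Fin.tail]

theorem det_tor (n : ℕ) : Det (xN n) (List.range n) := by
  induction n with
  | zero =>
    intro n c hc h
    obtain ⟨k, H⟩ := exists_contr (R := ℤ) (H := fun q : Tor 0 × ℝ => q.1) (A := univ) (by fun_prop)
      (mapsTo_univ _ _) (mem_univ 0) (fun _ _ => rfl) fun _ _ => Subsingleton.elim _ _
    refine Submodule.mem_sup_left (Contr.bd H hc.1 ?_)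
    obtain _ | n := n
    · have := h [] (by simp) rfl
      rw [List.map_nil, ev, e1_cf] at this
      rw [D_one hc.1, show e1 c = 0 by simpa using this, zero_smul]
    · exact Z_D_eq hc
  | succ n ih =>
    have := (ih.wang (cont_xN n)).transport (f' := xN (n + 1)) (e := fun t => (t 0, Fin.tail t))
      (e' := fun p => Fin.cons p.1 p.2) (by fun_prop) (by fun_prop) (fun t => Fin.cons_self_tail t)
      (fun o => o.elim 0 Nat.succ) (by
        rintro (_ | i)
        exacts [rfl, xN_succ n i])
    simpa [List.range_succ_eq_map, Function.comp_def] using this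

/-- The standard loop of the circle. -/
noncomputable def lp : C ℤ UnitAddCircle := real ((↑) : ℝ → UnitAddCircle) (single [0, 1] 1)

lemma lp_Z : lp ∈ Z ℤ univ ∅ 1 := mem_Z (glob_In cont_coe (fun _ => mem_univ _) _)
  (by rw [lp, D_edge cont_coe, AddCircle.coe_period]; simp)

/-- The fundamental cycle of the torus. -/
noncomputable def tau : (n : ℕ) → C ℤ (Tor n)
  | 0 => pt ℤ 0
  | n + 1 => map (fun p : UnitAddCircle × Tor n => Fin.cons p.1 p.2) (cross lp (tau n))

lemma tau_Z (n : ℕ) : tau n ∈ Z ℤ univ ∅ n := by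
  induction n with
  | zero => exact mem_Z_zero (pt_In trivial)
  | succ n ih => exact map_Z' (by fun_prop) (add_comm 1 n ▸ cross_Z lp_Z ih)

/-- The determinant of a matrix of unit vectors. -/
def dt : ℕ → List ℕ → ℤ
  | 0, I => if I = [] then 1 else 0
  | n + 1, I => shf 1 I fun J K =>
      (if J = [0] then 1 else 0) * if 0 ∈ K then 0 else dt n (K.map Nat.pred)

theorem ev_tau (n : ℕ) (I : List ℕ) (hI : I.length = n) :
    ev (I.map fun i => xf (xN n i)) (cR (tau n)) = dt n I := by
  induction n generalizing I with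
  | zero => simp [List.length_eq_zero_iff.1 hI, tau, cf_pt, ev, e1_pt, dt]
  | succ n ih =>
    let u : ℕ → UnitAddCircle → UnitAddCircle := fun i => if i = 0 then id else 0
    let v : ℕ → Tor n → UnitAddCircle := fun i => if i = 0 then 0 else xN n i.pred
    have hu : ∀ i, Continuous (u i) := fun i => by
      dsimp only [u]; split_ifs; exacts [continuous_id, continuous_zero]
    have hv : ∀ i, Continuous (v i) := fun i => by
      dsimp only [v]; split_ifs; exacts [continuous_zero, cont_xN _ _]
    have h1 := cf_In (Int.castRingHom ℝ) lp_Z.1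
    have h2 := cf_In (Int.castRingHom ℝ) (tau_Z n).1
    rw [tau, ev_xf_map (by fun_prop), cf_cross, ev_eq (u' := fun i => xf (u i) ∘ₗ map Prod.fst +
      xf (v i) ∘ₗ map Prod.snd) (fun i => Coc_add (Coc_map continuous_fst (Coc_xf (hu i)))
        (Coc_map continuous_snd (Coc_xf (hv i)))) (fun i => dies_of_zero fun c hc => ?_) I
      (by simpa [hI, add_comm] using cross_Z (cf_Z _ lp_Z) (cf_Z _ (tau_Z n))),
      ev_cross (fun i => Coc_xf (hu i)) (fun i => Coc_xf (hv i)) h1 h2, dt,
      ← eq_intCast (Int.castRingHom ℝ), map_shf]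
    · refine shf_congr fun J K hJ hK => ?_
      obtain ⟨j, rfl⟩ := List.length_eq_one_iff.1 hJ
      rw [map_mul, List.map_singleton, ev_one _ h1]
      congr 1
      · by_cases hj : j = 0
        · simp [u, hj, lp, cf_real, xf_real (f := id) cont_coe continuous_id rfl, -real_single]
        · simpa [u, hj, Pi.zero_def] using xf_const 0 h1
      · split_ifs with h0
        · exact (ev_zero (List.mem_map_of_mem h0) (fun c hc => xf_const 0 hc) h2).trans
            (map_zero _).symm
        · rw [eq_intCast, ← ih _ (by simp; omega), List.map_map,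
            List.map_congr_left (g := (fun i => xf (xN n i)) ∘ Nat.pred) fun i hi => by
              simp [v, show i ≠ 0 from fun h => h0 (h ▸ hi)]]
    · rw [LinearMap.sub_apply, LinearMap.add_apply, xf_map continuous_fst, xf_map continuous_snd,
        ← xf_add ((hu i).comp continuous_fst) ((hv i).comp continuous_snd) hc, sub_eq_zero]
      congr 2
      funext p
      obtain _ | i := i
      · simp [u, v, xN]
      · simp [u, v, xN_succ]

/-- The Pfaffian of the symplectic matrix on four indices. -/
def Pf (i j k l : ℕ) : ℤ := Jn i j * Jn k l - Jn i k * Jn j l + Jn i l * Jn j k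

lemma dt_two : ∀ i j : Fin 2, dt 2 [i, j] = Jn i j := by decide

lemma dt_six : dt 6 (List.range 6) = 1 := by decide

lemma dt_pf : ∀ i j k l : Fin 6, dt 6 [0, 1, i, j, k, l] + dt 6 [2, 3, i, j, k, l] +
    dt 6 [4, 5, i, j, k, l] = Pf i j k l := by decide +kernel

/-! ### Loops in tori -/

variable {n : ℕ} {t : Tor n}

lemma null_tor {γ : Path t t} (h : ∀ i : Fin n, xf (fun t => t i) (pc ℝ γ) = 0) :
    γ.Homotopic (Path.refl t) := by
  choose G hG e using fun i : Fin n => exists_lift ((continuous_apply i).comp γ.continuous_extend)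
  have h1 : ∀ i, G i 1 = G i 0 := fun i => by
    have := h i
    rwa [pc, xf_real γ.continuous_extend (hG i) (e i), sub_eq_zero] at this
  have h2 : ∀ i (s : unitInterval), γ s i = G i s := fun i s => by
    simpa using congrFun (e i) s
  have h3 : ∀ i, t i = G i 0 := fun i => by simpa using h2 i 0
  refine ⟨⟨⟨⟨fun q i => (((1 - q.1) * G i q.2 + q.1 * G i 0 : ℝ) : UnitAddCircle),
    continuous_pi fun i => cont_coe.comp (by fun_prop)⟩, fun s => ?_, fun s => ?_⟩, ?_⟩⟩
  · funext i
    simp [h2]
  · funext i
    simp [h3]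
  · rintro r s (rfl | rfl) <;> funext i <;> simp [h1, h3, sub_mul]

/-- The straight loop with given winding numbers. -/
noncomputable def wind (t : Tor n) (k : Fin n → ℤ) : Path t t where
  toFun s := t + fun i => (((s : ℝ) * k i : ℝ) : UnitAddCircle)
  continuous_toFun := continuous_const.add (continuous_pi fun i => cont_coe.comp (by fun_prop))
  source' := by ext i; simp
  target' := by ext i; simp

lemma xf_wind (t : Tor n) (k : Fin n → ℤ) (i : Fin n) :
    xf (fun t => t i) (pc ℝ (wind t k)) = k i := by
  obtain ⟨e, he⟩ := QuotientAddGroup.mk_surjective (t i)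
  rw [pc, xf_real (wind t k).continuous_extend (G := fun s => e + projIcc (0 : ℝ) 1 zero_le_one s * k i)
    (by fun_prop) (funext fun s => by simp [he]; rfl)]
  simp

end Pool.Agent.Lib.MP_18d288_gt
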