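import Pool.Agent.Lib.MP_18d288_gt.Gen

/-! Detection of integral homology classes of a product with a circle. -/

set_option linter.unusedSectionVars false
set_option maxSynthPendingDepth 3

namespace Pool.Agent.Lib.MP_18d288_gt

open Finsupp Set Pool.Agent.Shared.Sing Pool.Agent.Shared.SingEZ

variable {X Y : Type*} [TopologicalSpace X] [Nonempty X] [TopologicalSpace Y] [Nonempty Y]
  {κ κ' : Type*} {R : Type} [CommRing R]

/-- Integral homology classes are detected by the subwords of `L`. -/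
def Det (f : κ → X → UnitAddCircle) (L : List κ) : Prop := ∀ n, ∀ c ∈ Z ℤ univ ∅ n,
  (∀ I : List κ, I.Sublist L → I.length = n → ev (I.map fun i => xf (f i)) (cR c) = 0) →
    c ∈ B ℤ univ ∅ n

lemma map_Z' {g : X → Y} (hg : Continuous g) {A : Set X} {n : ℕ} {c : C R X}
    (hc : c ∈ Z R A ∅ n) : map g c ∈ Z R univ ∅ n :=
  map_Z hg.continuousOn (empty_subset _) (mapsTo_univ _ _) (mapsTo_empty _ _) hc

lemma map_B' {g : X → Y} (hg : Continuous g) {A : Set X} {n : ℕ} {c : C R X}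
    (hc : c ∈ B R A ∅ n) : map g c ∈ B R univ ∅ n :=
  map_B hg.continuousOn (empty_subset _) (mapsTo_univ _ _) (mapsTo_empty _ _) hc

lemma ev_xf_map {g : X → Y} (hg : Continuous g) (f : κ → Y → UnitAddCircle) (I : List κ)
    (c : C ℤ X) : ev (I.map fun i => xf (f i)) (cR (map g c)) =
      ev (I.map fun i => xf (f i ∘ g)) (cR c) := by
  rw [cf_map, ev_map' hg]
  simp only [xf_map hg]

lemma Det.transport {f : κ → X → UnitAddCircle} {L : List κ} (h : Det f L)
    {f' : κ' → Y → UnitAddCircle} {e : Y → X} {e' : X → Y} (he : Continuous e)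
    (he' : Continuous e') (h1 : ∀ y, e' (e y) = y) (σ : κ → κ') (h2 : ∀ i, f' (σ i) = f i ∘ e) :
    Det f' (L.map σ) := fun n c hc h0 => by
  have := map_B' he' (h n _ (map_Z' he hc) fun I hI hn => by
    have := h0 _ (hI.map σ) (by simpa using hn)
    rw [List.map_map] at this
    rw [ev_xf_map he, ← this]
    simp [Function.comp_def, h2])
  rwa [map_map' he, show e' ∘ e = id from funext h1, map_id'] at this

lemma In_split {A A' : Set Y} (hA : IsOpen A) (hA' : IsOpen A') (h : Disjoint A A') {n : ℕ}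
    {c : C R Y} (hc : c ∈ In R (A ∪ A') n) : ∃ a ∈ In R A n, c - a ∈ In R A' n := by
  have : c ∈ In R A n ⊔ In R A' n := map_mem (F := LinearMap.id) (fun s hs =>
    (((convex_Δ _).isPreconnected.image _ s.cont).subset_or_subset hA hA' h hs.2.image_subset).elim
      (fun h => Submodule.mem_sup_left (show single s 1 ∈ In R A n from
        single_mem ⟨hs.1, mapsTo_iff_image_subset.2 h⟩))
      fun h => Submodule.mem_sup_right (show single s 1 ∈ In R A' n from
        single_mem ⟨hs.1, mapsTo_iff_image_subset.2 h⟩)) hc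
  obtain ⟨a, ha, b, hb, rfl⟩ := Submodule.mem_sup.1 this
  exact ⟨a, ha, by simpa using hb⟩

lemma cap_pv {A : Set Y} {g : Y → R} {r : R} (h : ∀ y ∈ A, g y = r) {n : ℕ} {c : C R Y}
    (hc : c ∈ In R A (n + 1)) : cap 0 (pv g) c = r • c :=
  eq_In (g := r • LinearMap.id) (fun F hF hA l hl => by
    obtain _ | ⟨v, l⟩ := l
    · simp at hl
    simp [cap_glob hF, capL_zero, real_one, h _ (hA v), -real_single, -smul_single]) hc

/-- A section of the circle cut at `a`. -/
noncomputable def sec (a : ℝ) (s : UnitAddCircle) : ℝ := AddCircle.equivIoc 1 a s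

lemma coe_sec (a : ℝ) (s : UnitAddCircle) : (sec a s : UnitAddCircle) = s := AddCircle.coe_equivIoc

lemma sec_coe {a t : ℝ} (h : t ∈ Ioc a (a + 1)) : sec a t = t := AddCircle.equivIoc_coe_of_mem h

variable (X) in
/-- An open arc times `X`. -/
def Arc (a b : ℝ) : Set (UnitAddCircle × X) := ((↑) '' Ioo a b) ×ˢ univ

lemma isOpen_Arc (a b : ℝ) : IsOpen (Arc X a b) :=
  (QuotientAddGroup.isOpenMap_coe _ isOpen_Ioo).prod isOpen_univ

lemma mem_Arc {a b : ℝ} (h : b ≤ a + 1) {p : UnitAddCircle × X} :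
    p ∈ Arc X a b ↔ sec a p.1 < b := by
  refine ⟨fun ⟨⟨t, ht, e⟩, _⟩ => ?_, fun hp => ⟨⟨_, ⟨(AddCircle.equivIoc 1 a p.1).2.1, hp⟩,
    coe_sec a _⟩, trivial⟩⟩
  rw [← e, sec_coe ⟨ht.1, ht.2.le.trans h⟩]
  exact ht.2

lemma cont_sec {a b : ℝ} (h : b ≤ a + 1) : ContinuousOn (fun p => sec a p.1) (Arc X a b) := by
  refine fun p hp => ContinuousAt.continuousWithinAt (continuous_subtype_val.continuousAt.comp
    ((AddCircle.continuousAt_equivIoc 1 a fun e => ?_).comp continuousAt_fst))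
  have := (mem_Arc h).1 hp
  rw [e, ← AddCircle.coe_add_period 1 a, sec_coe ⟨by simp, le_rfl⟩] at this
  linarith

lemma arc_retr {a b t : ℝ} (h : b ≤ a + 1) (ht : t ∈ Ioo a b) {n : ℕ} {c : C R (UnitAddCircle × X)}
    (hc : c ∈ Z R (Arc X a b) ∅ n) :
    c - map (Prod.mk (t : UnitAddCircle)) (map Prod.snd c) ∈ B R (Arc X a b) ∅ n := by
  have h1 : ContinuousOn (fun q : (UnitAddCircle × X) × ℝ => sec a q.1.1) (Arc X a b ×ˢ Icc 0 1) :=
    (cont_sec h).comp continuousOn_fst fun _ hq => hq.1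
  have := htpy_B (H := fun q : (UnitAddCircle × X) × ℝ =>
    ((((1 - q.2) * t + q.2 * sec a q.1.1 : ℝ) : UnitAddCircle), q.1.2)) (A := Arc X a b) (A' := ∅)
    (ContinuousOn.prodMk (continuous_quotient_mk'.comp_continuousOn (by fun_prop)) (by fun_prop))
    (empty_subset _) (fun q hq => ⟨⟨_, convex_Ioo a b ht ⟨(AddCircle.equivIoc 1 a _).2.1,
      (mem_Arc h).1 hq.1⟩ (sub_nonneg.2 hq.2.2) hq.2.1 (by simp), rfl⟩, trivial⟩)
    (fun q hq => hq.1.elim) hc
  rw [map_self (fun p _ => by simp [coe_sec]) hc.1] at this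
  simpa [map_map' continuous_snd, Function.comp_def] using this

lemma arc_null {a b : ℝ} (hab : a < b) (h : b ≤ a + 1) {n : ℕ} {c : C R (UnitAddCircle × X)}
    (hc : c ∈ Z R (Arc X a b) ∅ n) (h0 : map Prod.snd c ∈ B R univ ∅ n) :
    c ∈ B R (Arc X a b) ∅ n := by
  have ht : (a + b) / 2 ∈ Ioo a b := ⟨by linarith, by linarith⟩
  exact (congr_B (arc_retr h ht hc)).2 (map_B (by fun_prop) (empty_subset _)
    (fun x _ => ⟨⟨_, ht, rfl⟩, trivial⟩) (mapsTo_empty _ _) h0)

lemma cup_lift {A : Set Y} {f : Y → UnitAddCircle} {G : Y → ℝ} (hG : ContinuousOn G A)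
    (h : ∀ y ∈ A, f y = G y) {k : ℕ} {w : C ℝ Y →ₗ[ℝ] ℝ} (hw : Coc univ k w) {a : C ℝ Y}
    (ha : a ∈ In ℝ A (k + 2)) : cup 1 (xf f) w a = w (cap 0 (pv G) (D a)) := by
  have h1 := hw _ (In_univ (cap_In' (p := 0) (pv G) (by simpa using ha)))
  rw [D_cap _ ha (by omega), pow_zero, one_smul, map_sub, sub_eq_zero,
    ← cap_congr (φ := xf f) (fun c hc => xf_lift hG h hc) ha] at h1
  exact h1.symm

theorem Det.wang {f : κ → X → UnitAddCircle} (hf : ∀ i, Continuous (f i)) {L : List κ}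
    (h : Det f L) : Det (fun o : Option κ => o.elim Prod.fst fun i => f i ∘ Prod.snd)
      (none :: L.map Option.some) := fun n c hc h0 => by
  have hU : Arc X 0 1 ∪ Arc X (1 / 2) (3 / 2) = univ := eq_univ_of_forall fun p => by
    by_cases hp : sec 0 p.1 < 1
    · exact .inl ((mem_Arc (by simp)).2 hp)
    · have := (AddCircle.equivIoc 1 0 p.1).2.2
      exact .inr ⟨⟨_, ⟨show _ < sec 0 p.1 by linarith, lt_of_le_of_lt this (by norm_num)⟩, coe_sec 0 _⟩, trivial⟩
  have s1 : ∀ p ∈ Arc X 0 (1 / 2), sec (1 / 2) p.1 = sec 0 p.1 + 1 := by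
    rintro p ⟨⟨t, ht, e⟩, -⟩
    rw [← e, sec_coe (a := 0) ⟨ht.1, by linarith [ht.2]⟩, ← AddCircle.coe_add_period 1 t,
      sec_coe ⟨by linarith [ht.1], by linarith [ht.2]⟩]
  have s2 : ∀ p ∈ Arc X (1 / 2) 1, sec (1 / 2) p.1 = sec 0 p.1 := by
    rintro p ⟨⟨t, ht, e⟩, -⟩
    rw [← e, sec_coe (a := 0) ⟨by linarith [ht.1], by linarith [ht.2]⟩,
      sec_coe ⟨ht.1, by linarith [ht.2]⟩]
  have hI : Arc X 0 1 ∩ Arc X (1 / 2) (3 / 2) = Arc X 0 (1 / 2) ∪ Arc X (1 / 2) 1 := by
    refine subset_antisymm (fun p hp => ?_) (union_subset (fun p hp => ⟨?_, ?_⟩) fun p hp => ⟨?_, ?_⟩)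
    · obtain ⟨⟨⟨t, ht, e⟩, -⟩, h2⟩ := hp
      rcases lt_trichotomy t (1 / 2) with h1 | rfl | h1
      · exact .inl ⟨⟨t, ⟨ht.1, h1⟩, e⟩, trivial⟩
      · rw [mem_Arc (by norm_num), ← e, ← AddCircle.coe_add_period 1,
          sec_coe ⟨by norm_num, le_rfl⟩] at h2
        norm_num at h2
      · exact .inr ⟨⟨t, ⟨h1, ht.2⟩, e⟩, trivial⟩
    · exact prod_mono_left (image_mono (Ioo_subset_Ioo_right (by norm_num))) hp
    · rw [mem_Arc (by norm_num), s1 p hp]
      linarith [(mem_Arc (by norm_num)).1 hp]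
    · exact prod_mono_left (image_mono (Ioo_subset_Ioo_left (by norm_num))) hp
    · exact prod_mono_left (image_mono (Ioo_subset_Ioo_right (by norm_num))) hp
  have hD : Disjoint (Arc X 0 (1 / 2)) (Arc X (1 / 2) 1) :=
    disjoint_left.2 fun p h1 h2 => by linarith [s1 p h1, s2 p h2]
  obtain ⟨m, a, ha, hb⟩ := small_ex (isOpen_Arc 0 1) (isOpen_Arc (1 / 2) (3 / 2)) (hU ▸ hc.1)
  have h1 := sub_sd hc m
  obtain ⟨b, e⟩ : ∃ b, (sd ^ m) c = a + b := ⟨_, (add_sub_cancel _ _).symm⟩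
  rw [e] at h1
  rw [e, add_sub_cancel_left] at hb
  have h2 : map Prod.snd (a + b) ∈ B ℤ univ ∅ n := by
    have := h n _ (map_Z' continuous_snd hc) fun I hI hn => by
      have := h0 _ ((hI.map Option.some).cons _) (by simpa using hn)
      rw [List.map_map] at this
      rwa [ev_xf_map continuous_snd]
    simpa using sub_mem this (map_B' continuous_snd h1)
  have key : ∀ a' ∈ Z ℤ (Arc X 0 1) ∅ n, ∀ b' ∈ Z ℤ (Arc X (1 / 2) (3 / 2)) ∅ n,
      a' + b' = a + b → c ∈ B ℤ univ ∅ n := fun a' ha' b' hb' e' => by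
    have h3 := B_mono (subset_univ _) le_rfl (arc_retr (t := 3 / 4) (by norm_num) (by norm_num) ha')
    have h4 := B_mono (subset_univ _) le_rfl (arc_retr (t := 3 / 4) (by norm_num) (by norm_num) hb')
    have h5 := map_B' (g := Prod.mk ((3 / 4 : ℝ) : UnitAddCircle)) (by fun_prop) h2
    rw [← e'] at h1 h5
    convert add_mem h1 (add_mem (add_mem h3 h4) h5) using 1
    simp only [map_add]
    abel
  obtain _ | k := n
  · exact key a (mem_Z_zero ha) b (mem_Z_zero hb) rfl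
  have h3 : D b = -D a := by
    rw [eq_neg_iff_add_eq_zero, add_comm, ← map_add, ← e, D_sd, Z_D_eq hc, map_zero]
  obtain ⟨d, hd, hd'⟩ := In_split (isOpen_Arc _ _) (isOpen_Arc _ _) hD
    (hI ▸ In_inter (D_In ha) (by simpa [h3] using D_In hb))
  have z1 : D d ∈ In ℤ ∅ k := hD.inter_eq ▸ In_inter (D_In hd) (by simpa using D_In hd')
  have h4 : map Prod.snd d ∈ B ℤ univ ∅ k := h k _ (map_Z' continuous_snd ⟨hd, z1⟩) fun I hI hn => by
    have hw : Coc univ k (ev (I.map fun i => xf (f i ∘ Prod.snd : UnitAddCircle × X → _))) :=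
      hn ▸ Coc_ev' (fun i => Coc_xf ((hf i).comp continuous_snd)) I
    have h5 := h0 _ ((hI.map Option.some).cons_cons _) (by simpa using hn)
    have h6 := ((Coc_xf continuous_fst).cup hw).apply_B (add_comm k 1 ▸ cf_B (Int.castRingHom ℝ) h1)
    rw [List.map_cons, List.map_map] at h5
    rw [map_sub, map_sub, show cup 1 (xf Prod.fst) (ev (I.map fun i => xf (f i ∘ Prod.snd)))
      (cR c) = 0 from h5, map_add, map_add,
      cup_lift (cont_sec (by norm_num)) (fun p _ => (coe_sec 0 _).symm) hw (cf_In _ ha),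
      cup_lift (cont_sec (by norm_num)) (fun p _ => (coe_sec (1 / 2) _).symm) hw (cf_In _ hb),
      ← cf_D, ← cf_D, h3, map_neg, map_neg, map_neg, ← sub_eq_add_neg, ← map_sub, ← cap_sub,
      show pv (fun p : UnitAddCircle × X => sec 0 p.1) - pv (fun p => sec (1 / 2) p.1) =
        pv fun p => sec 0 p.1 - sec (1 / 2) p.1 from LinearMap.ext fun c =>
          map_eq (fun s _ => by simp [pv]) (mem_top c),
      ← add_sub_cancel d (D a), map_add, map_add,
      cap_pv (r := -1) (fun p hp => by rw [s1 p hp]; ring) (cf_In _ hd),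
      cap_pv (r := 0) (fun p hp => by rw [s2 p hp]; ring) (cf_In _ hd')] at h6
    rw [ev_xf_map continuous_snd]
    simpa using h6
  have h5 := arc_null (by norm_num) (by norm_num) ⟨hd, z1⟩ h4
  have h6 := arc_null (by norm_num) (by norm_num) ⟨hd', by simpa using z1⟩
    (map_sub (map Prod.snd) (D a) d ▸ sub_mem (map_B' continuous_snd (D_mem_B ha)) h4)
  obtain ⟨w, hw, h7⟩ := mem_B_empty (add_mem (B_mono subset_union_left le_rfl h5)
    (B_mono subset_union_right le_rfl h6))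
  rw [← hI] at hw
  exact key (a - w) (mem_Z (sub_mem ha (In_mono inter_subset_left _ hw)) (by simp [h7])) (b + w)
    (mem_Z (add_mem hb (In_mono inter_subset_right _ hw)) (by simp [h7, h3])) (by abel)

end Pool.Agent.Lib.MP_18d288_gt
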